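import Pool.Agent.Helper71.Sos.W1
set_option autoImplicit false

/-!
MP_16b0ee, project EK3 (after helper98): a form of a block is bounded by a power of `1 + u² + v²` if its basis has
no factors `P, R` and small degrees in `u, v`.
-/

namespace Pool.Sos71.Bdd

open Pool.Sos71

/-- no factors `P, R`, and degree at most `K` in `u, v` -/
def mob (K : ℕ) (m : Mon) : Bool := Nat.beq m.d 0 && Nat.beq m.e 0 && Nat.ble (m.f + m.g) K

/-- the basis has no factors `P, R`, and degrees at most `K` in `u, v` -/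
def itb (K : ℕ) : List Itm → Bool
  | [] => true
  | i :: it => mob K (i.m.add i.f.m1) && mob K (i.m.add i.f.m2) && itb K it

theorem mob_iff {K : ℕ} {m : Mon} (h : mob K m = true) : m.d = 0 ∧ m.e = 0 ∧ m.f + m.g ≤ K := by
  simp only [mob, Bool.and_eq_true, Nat.ble_eq] at h
  obtain ⟨⟨h1, h2⟩, h3⟩ := h
  exact ⟨Nat.eq_of_beq_eq_true h1, Nat.eq_of_beq_eq_true h2, h3⟩

/-- points of the domain -/
def Dom0 (L : ℝ) (x : Pnt) : Prop := (0 ≤ x.a ∧ x.a ≤ L) ∧ |x.b| ≤ 1 ∧ |x.c| ≤ 1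

/-- the size of a point -/
noncomputable def rho (x : Pnt) : ℝ := Real.sqrt (1 + x.f ^ 2 + x.g ^ 2)

theorem rho_one (x : Pnt) : 1 ≤ rho x := by
  unfold rho
  rw [Real.one_le_sqrt]
  nlinarith [sq_nonneg x.f, sq_nonneg x.g]

theorem rho_sq (x : Pnt) : rho x ^ 2 = 1 + x.f ^ 2 + x.g ^ 2 :=
  Real.sq_sqrt (by positivity)

theorem f_le (x : Pnt) : |x.f| ≤ rho x := by
  unfold rho
  rw [← Real.sqrt_sq_eq_abs]
  exact Real.sqrt_le_sqrt (by nlinarith [sq_nonneg x.g])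

theorem g_le (x : Pnt) : |x.g| ≤ rho x := by
  unfold rho
  rw [← Real.sqrt_sq_eq_abs]
  exact Real.sqrt_le_sqrt (by nlinarith [sq_nonneg x.f])

theorem mon_le {K : ℕ} {L : ℝ} (hL : 1 ≤ L) {x : Pnt} (hx : Dom0 L x) {m : Mon}
    (hd : m.d = 0) (he : m.e = 0) (h : m.f + m.g ≤ K) : |m.val x| ≤ L ^ m.a * rho x ^ K := by
  obtain ⟨⟨a0, a1⟩, b1, c1⟩ := hx
  have hr := rho_one x
  unfold Mon.val
  rw [hd, he, pow_zero, pow_zero, mul_one, mul_one]
  simp only [abs_mul, abs_pow]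
  have e1 : |x.a| ^ m.a ≤ L ^ m.a := by
    rw [abs_of_nonneg a0]
    exact pow_le_pow_left₀ a0 a1 _
  have e2 : |x.b| ^ m.b ≤ 1 := pow_le_one₀ (abs_nonneg _) b1
  have e3 : |x.c| ^ m.c ≤ 1 := pow_le_one₀ (abs_nonneg _) c1
  have e4 : |x.f| ^ m.f ≤ rho x ^ m.f := pow_le_pow_left₀ (abs_nonneg _) (f_le x) _
  have e5 : |x.g| ^ m.g ≤ rho x ^ m.g := pow_le_pow_left₀ (abs_nonneg _) (g_le x) _
  have hL0 : 0 ≤ L ^ m.a := by positivity
  have hr0 : 0 ≤ rho x := by linarith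
  calc |x.a| ^ m.a * |x.b| ^ m.b * |x.c| ^ m.c * |x.f| ^ m.f * |x.g| ^ m.g
      ≤ L ^ m.a * 1 * 1 * rho x ^ m.f * rho x ^ m.g := by gcongr
    _ = L ^ m.a * rho x ^ (m.f + m.g) := by rw [pow_add]; ring
    _ ≤ L ^ m.a * rho x ^ K := mul_le_mul_of_nonneg_left (pow_le_pow_right₀ hr h) hL0

theorem itb_cons {K : ℕ} {i : Itm} {it : List Itm} (h : itb K (i :: it) = true) :
    mob K (i.m.add i.f.m1) = true ∧ mob K (i.m.add i.f.m2) = true ∧ itb K it = true := by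
  simp only [itb, Bool.and_eq_true] at h
  obtain ⟨⟨h1, h2⟩, h3⟩ := h
  exact ⟨h1, h2, h3⟩

/-- the bound of one element -/
noncomputable def cb (L : ℝ) (i : Itm) : ℝ :=
  i.f.c * L ^ (i.m.add i.f.m1).a + i.f.d * L ^ (i.m.add i.f.m2).a

theorem cb_nonneg {L : ℝ} (hL : 1 ≤ L) (i : Itm) : 0 ≤ cb L i := by unfold cb; positivity

theorem itm_le {K : ℕ} {L : ℝ} (hL : 1 ≤ L) {x : Pnt} (hx : Dom0 L x) {i : Itm}
    (h1 : mob K (i.m.add i.f.m1) = true) (h2 : mob K (i.m.add i.f.m2) = true) :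
    |i.re x| ≤ cb L i * rho x ^ K := by
  obtain ⟨a1, a2, a3⟩ := mob_iff h1
  obtain ⟨b1, b2, b3⟩ := mob_iff h2
  have g1 := mon_le hL hx a1 a2 a3
  have g2 := mon_le hL hx b1 b2 b3
  have c1 : (0:ℝ) ≤ i.f.c := Nat.cast_nonneg _
  have c2 : (0:ℝ) ≤ i.f.d := Nat.cast_nonneg _
  have k1 := mul_le_mul_of_nonneg_left g1 c1
  have k2 := mul_le_mul_of_nonneg_left g2 c2
  have e : ∀ s : ℝ, |s| ≤ 1 → |i.f.c * (i.m.add i.f.m1).val x + s * (i.f.d * (i.m.add i.f.m2).val x)| ≤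
      cb L i * rho x ^ K := by
    intro s hs
    refine (abs_add_le _ _).trans ?_
    rw [abs_mul, abs_mul s, abs_mul (i.f.d : ℝ), abs_of_nonneg c1, abs_of_nonneg c2]
    have : |s| * (i.f.d * |(i.m.add i.f.m2).val x|) ≤ i.f.d * |(i.m.add i.f.m2).val x| :=
      mul_le_of_le_one_left (mul_nonneg c2 (abs_nonneg _)) hs
    unfold cb
    nlinarith
  unfold Itm.re Fac.re
  rcases i.f.s with _ | _
  · have := e 1 (by simp)
    rw [Mon.val_add, Mon.val_add] at this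
    refine le_trans (le_of_eq ?_) this
    congr 1
    simp only
    ring
  · have := e (-1) (by simp)
    rw [Mon.val_add, Mon.val_add] at this
    refine le_trans (le_of_eq ?_) this
    congr 1
    simp only
    ring

theorem rab_bd {K : ℕ} {L : ℝ} (hL : 1 ≤ L) (it : List Itm) (h : itb K it = true) :
    ∃ C : ℝ, 0 ≤ C ∧ ∀ x, Dom0 L x → rab x it ≤ C * rho x ^ K := by
  induction it with
  | nil => exact ⟨0, le_rfl, fun x _ => by simp [rab]⟩
  | cons i it ih =>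
    obtain ⟨h1, h2, h4⟩ := itb_cons h
    obtain ⟨C, hC, hC'⟩ := ih h4
    have hcb := cb_nonneg hL i
    refine ⟨cb L i + C, by positivity, fun x hx => ?_⟩
    have := itm_le hL hx h1 h2
    have := hC' x hx
    rw [rab]
    linarith

theorem rz2_bd {K : ℕ} {L : ℝ} (hL : 1 ≤ L) (it : List Itm) (h : itb K it = true) :
    ∃ C : ℝ, 0 ≤ C ∧ ∀ x, Dom0 L x → rz2 x it ≤ C * (rho x ^ K) ^ 2 := by
  induction it with
  | nil => exact ⟨0, le_rfl, fun x _ => by simp [rz2]⟩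
  | cons i it ih =>
    obtain ⟨h1, h2, h4⟩ := itb_cons h
    obtain ⟨C, hC, hC'⟩ := ih h4
    have hcb := cb_nonneg hL i
    refine ⟨(cb L i) ^ 2 + C, by positivity, fun x hx => ?_⟩
    have h5 := itm_le hL hx h1 h2
    have h6 := hC' x hx
    have h7 : i.re x ^ 2 ≤ (cb L i * rho x ^ K) ^ 2 := by
      rw [← sq_abs]
      exact pow_le_pow_left₀ (abs_nonneg _) h5 2
    rw [rz2]
    nlinarith

theorem rsq_bd {B off : ℕ} (hB : B = 2 * off) (h0 : 0 < off) {K : ℕ} {L : ℝ} (hL : 1 ≤ L)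
    (it : List Itm) (h : itb K it = true) (Ls : List ℕ) :
    ∃ C : ℝ, 0 ≤ C ∧ ∀ x, Dom0 L x → rsq B off x it Ls ≤ C * (rho x ^ K) ^ 2 := by
  induction it generalizing Ls with
  | nil => exact ⟨0, le_rfl, fun x _ => by simp [rsq]⟩
  | cons i it ih =>
    cases Ls with
    | nil => exact ⟨0, le_rfl, fun x _ => by simp [rsq]⟩
    | cons l Ls =>
      obtain ⟨C, hC, hC'⟩ := ih (itb_cons h).2.2 Ls
      obtain ⟨D, hD, hD'⟩ := rab_bd hL (i :: it) h
      refine ⟨(off * D) ^ 2 + C, by positivity, fun x hx => ?_⟩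
      have h1 := rl_abs hB h0 x (i :: it) l
      have h2 := hD' x hx
      have h3 := hC' x hx
      have hoff : (0 : ℝ) ≤ off := Nat.cast_nonneg _
      have h4 : |rl B off x (i :: it) l| ≤ off * D * rho x ^ K := by
        refine h1.trans ?_
        rw [mul_assoc]
        exact mul_le_mul_of_nonneg_left h2 hoff
      have h5 : rl B off x (i :: it) l ^ 2 ≤ (off * D * rho x ^ K) ^ 2 := by
        rw [← sq_abs]
        exact pow_le_pow_left₀ (abs_nonneg _) h4 2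
      rw [rsq]
      nlinarith

/-- **the form of a block is bounded** -/
theorem q_bd {b : Blk} {k : ℕ} {r : Rad} (hb : b.okW k r = true) {K : ℕ}
    (hi : itb K b.its = true) {L : ℝ} (hL : 1 ≤ L) :
    ∃ C : ℝ, 0 ≤ C ∧ ∀ x, Dom0 L x → b.q x ≤ C * (1 + x.f ^ 2 + x.g ^ 2) ^ K := by
  simp only [Blk.okW, Bool.and_eq_true, Nat.blt_eq] at hb
  obtain ⟨⟨⟨⟨⟨⟨_, _⟩, h3⟩, h4⟩, h5⟩, h6⟩, _⟩ := hb
  have h3 := Nat.eq_of_beq_eq_true h3
  have h5 := Nat.eq_of_beq_eq_true h5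
  obtain ⟨C, hC, hC'⟩ := rsq_bd h3 h4 hL b.its hi b.L
  obtain ⟨D, hD, hD'⟩ := rz2_bd hL b.its hi
  refine ⟨C + b.dl * D + (b.its.length + 1) * b.offE * D, by positivity, fun x hx => ?_⟩
  have e : (rho x ^ K) ^ 2 = (1 + x.f ^ 2 + x.g ^ 2) ^ K := by
    rw [← rho_sq, ← pow_mul, ← pow_mul, mul_comm]
  have h7 := hC' x hx
  have h8 := hD' x hx
  have h9 := rex_abs h5 h6 x b.its b.E
  have h10 := le_abs_self (rex b.BE b.offE x b.its b.E)
  rw [e] at h7 h8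
  have h11 : (b.dl : ℝ) * rz2 x b.its ≤ b.dl * (D * (1 + x.f ^ 2 + x.g ^ 2) ^ K) :=
    mul_le_mul_of_nonneg_left h8 (Nat.cast_nonneg _)
  have h12 : ((b.its.length : ℝ) + 1) * b.offE * rz2 x b.its ≤
      ((b.its.length : ℝ) + 1) * b.offE * (D * (1 + x.f ^ 2 + x.g ^ 2) ^ K) :=
    mul_le_mul_of_nonneg_left h8 (by positivity)
  have h13 : 0 ≤ ((b.its.length : ℝ) + 1) * b.offE * (D * (1 + x.f ^ 2 + x.g ^ 2) ^ K) := by
    positivity
  rw [Blk.q]
  nlinarith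

end Pool.Sos71.Bdd
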