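import Pool.Agent.Helper71.Sos.Rep
import Pool.Agent.Helper71.EK.Kr

/-!
Expressions for polynomials in `l, S, C, P, R, u, v` (variables `va 0, ..., va 6`).
`bp P` is the polynomial in `(u, v)` given by a list of rows.
-/

set_option autoImplicit false

namespace Pool.Sos71

inductive Ex where
  | lit (z : ℤ) : Ex
  | va (i : ℕ) : Ex
  | add (p q : Ex) : Ex
  | mul (p q : Ex) : Ex
  | sc (z : ℤ) (p : Ex) : Ex
  | pow (p : Ex) (n : ℕ) : Ex
  | bp (P : List (List ℤ)) : Ex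

/-- values of the variables `S, l, P, R, v, u` at the integer point (`C = 1`) -/
structure IPt where
  a : ℤ
  b : ℤ
  d : ℤ
  e : ℤ
  f : ℤ
  g : ℤ

def ipow (z : ℤ) : ℕ → ℤ
  | 0 => 1
  | n + 1 => Int.mul z (ipow z n)

lemma ipow_eq (z : ℤ) (n : ℕ) : ipow z n = z ^ n := by
  induction n with
  | zero => rw [pow_zero]; rfl
  | succ n ih => rw [ipow, ih, pow_succ]; exact mul_comm _ _

def npow (z : ℕ) : ℕ → ℕ
  | 0 => 1
  | n + 1 => Nat.mul z (npow z n)

lemma npow_eq (z : ℕ) (n : ℕ) : npow z n = z ^ n := by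
  induction n with
  | zero => rw [pow_zero]; rfl
  | succ n ih => rw [npow, ih, pow_succ]; exact mul_comm _ _

def iev1 (y : ℤ) : List ℤ → ℤ
  | [] => 0
  | a :: l => Int.add a (Int.mul y (iev1 y l))

def iev2 (x y : ℤ) : List (List ℤ) → ℤ
  | [] => 0
  | r :: P => Int.add (iev1 y r) (Int.mul x (iev2 x y P))

def nm1 : List ℤ → ℕ
  | [] => 0
  | a :: l => Nat.add a.natAbs (nm1 l)

def nm2 : List (List ℤ) → ℕ
  | [] => 0
  | r :: P => Nat.add (nm1 r) (nm2 P)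

/-- degree of a list of coefficients -/
def dg1 : List ℤ → ℕ
  | [] => 0
  | _ :: l => match l with
    | [] => 0
    | _ :: _ => Nat.succ (dg1 l)

def dgy : List (List ℤ) → ℕ
  | [] => 0
  | r :: P => Nat.max (dg1 r) (dgy P)

def dgx : List (List ℤ) → ℕ
  | [] => 0
  | _ :: P => match P with
    | [] => 0
    | _ :: _ => Nat.succ (dgx P)

/-- evaluation at the integer point -/
def Ex.ev (X : IPt) : Ex → ℤ
  | lit z => z
  | va i => match i with
    | 0 => X.a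
    | 1 => X.b
    | 2 => 1
    | 3 => X.d
    | 4 => X.e
    | 5 => X.f
    | _ => X.g
  | add p q => Int.add (p.ev X) (q.ev X)
  | mul p q => Int.mul (p.ev X) (q.ev X)
  | sc z p => Int.mul z (p.ev X)
  | pow p n => ipow (p.ev X) n
  | bp P => iev2 X.f X.g P

/-- real value -/
noncomputable def Ex.re (x : Pnt) : Ex → ℝ
  | lit z => z
  | va i => match i with
    | 0 => x.a
    | 1 => x.b
    | 2 => x.c
    | 3 => x.d
    | 4 => x.e
    | 5 => x.f
    | _ => x.g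
  | add p q => p.re x + q.re x
  | mul p q => p.re x * q.re x
  | sc z p => z * p.re x
  | pow p n => p.re x ^ n
  | bp P => Pool.EK71.ev2 x.f x.g P

/-- norm bound -/
def Ex.nm : Ex → ℕ
  | lit z => z.natAbs
  | va _ => 1
  | add p q => Nat.add p.nm q.nm
  | mul p q => Nat.mul p.nm q.nm
  | sc z p => Nat.mul z.natAbs p.nm
  | pow p n => npow p.nm n
  | bp P => nm2 P

def Bd.max (B D : Bd) : Bd :=
  ⟨Nat.max B.a D.a, Nat.max B.b D.b, Nat.max B.d D.d, Nat.max B.e D.e, Nat.max B.f D.f,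
    Nat.max B.g D.g, B.w⟩

def Bd.smul (n : ℕ) (B : Bd) : Bd :=
  ⟨n * B.a, n * B.b, n * B.d, n * B.e, n * B.f, n * B.g, n * B.w⟩

/-- box of the exponents -/
def Ex.bd : Ex → Bd
  | lit _ => ⟨0, 0, 0, 0, 0, 0, 0⟩
  | va i => match i with
    | 0 => ⟨1, 0, 0, 0, 0, 0, 0⟩
    | 1 => ⟨0, 1, 0, 0, 0, 0, 1⟩
    | 2 => ⟨0, 0, 0, 0, 0, 0, 1⟩
    | 3 => ⟨0, 0, 1, 0, 0, 0, 2⟩
    | 4 => ⟨0, 0, 0, 1, 0, 0, 2⟩
    | 5 => ⟨0, 0, 0, 0, 1, 0, 0⟩
    | _ => ⟨0, 0, 0, 0, 0, 1, 0⟩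
  | add p q => p.bd.max q.bd
  | mul p q => p.bd.add q.bd
  | sc _ p => p.bd
  | pow p n => p.bd.smul n
  | bp P => ⟨0, 0, 0, 0, dgx P, dgy P, 0⟩

/-- homogeneity -/
def Ex.ok : Ex → Bool
  | lit _ => true
  | va _ => true
  | add p q => p.ok && q.ok && Nat.beq p.bd.w q.bd.w
  | mul p q => p.ok && q.ok
  | sc _ p => p.ok
  | pow p _ => p.ok
  | bp _ => true

/-- the integer point of the radices `r` and the base `w` -/
def Rad.pt (r : Rad) (w : ℤ) : IPt := ⟨w ^ r.ra, w ^ r.rb, w ^ r.rd, w ^ r.re, w, w ^ r.rg⟩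

lemma Bd.le_max_left (B D : Bd) : B.le (B.max D) :=
  ⟨Nat.le_max_left _ _, Nat.le_max_left _ _, Nat.le_max_left _ _, Nat.le_max_left _ _,
    Nat.le_max_left _ _, Nat.le_max_left _ _, rfl⟩

lemma Bd.le_max_right (B D : Bd) (h : B.w = D.w) : D.le (B.max D) :=
  ⟨Nat.le_max_right _ _, Nat.le_max_right _ _, Nat.le_max_right _ _, Nat.le_max_right _ _,
    Nat.le_max_right _ _, Nat.le_max_right _ _, h.symm⟩

lemma Rep.of_mon {w : ℤ} {r : Rad} {x : Pnt} {m : Mon} {N : Bd} (h : m.In N) {v : ℤ} {φ : ℝ}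
    (hv : v = w ^ m.code r) (hφ : φ = m.val x) : Rep w r x N 1 v φ := by
  have := Rep.mon (w := w) (r := r) (x := x) 1 h
  rw [hv, hφ]
  simpa using this

lemma Rep.b1 {w : ℤ} {r : Rad} {x : Pnt} (l : List ℤ) :
    Rep w r x ⟨0, 0, 0, 0, 0, dg1 l, 0⟩ (nm1 l) (iev1 (w ^ r.rg) l) (Pool.EK71.ev1 x.g l) := by
  induction l with
  | nil => exact Rep.zero _ _
  | cons a l ih =>
    have h0 : (⟨0, 0, 0, 0, 0, 0, 0⟩ : Mon).In ⟨0, 0, 0, 0, 0, dg1 (a :: l), 0⟩ := by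
      simp [Mon.In]
    have h1 := Rep.mon (w := w) (r := r) (x := x) a h0
    simp only [Mon.code, Mon.val, mul_zero, add_zero, pow_zero, mul_one] at h1
    cases l with
    | nil =>
      have h2 := h1.add (Rep.zero (w := w) (r := r) (x := x) ⟨0, 0, 0, 0, 0, dg1 [a], 0⟩ 0)
      have e1 : iev1 (w ^ r.rg) [a] = a + 0 := by simp [iev1]
      have e2 : Pool.EK71.ev1 x.g [a] = a + 0 := by simp [Pool.EK71.ev1]
      rw [e1, e2]
      exact h2
    | cons b l =>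
      have h2 := Rep.of_mon (w := w) (r := r) (x := x) (m := ⟨0, 0, 0, 0, 0, 0, 1⟩)
        (N := ⟨0, 0, 0, 0, 0, 1, 0⟩) (by simp [Mon.In]) (v := w ^ r.rg) (φ := x.g)
        (by simp [Mon.code]) (by simp [Mon.val])
      have h3 := h1.add ((h2.mul ih).le (N' := ⟨0, 0, 0, 0, 0, dg1 (a :: b :: l), 0⟩) (by
        refine ⟨by simp [Bd.add], by simp [Bd.add], by simp [Bd.add], by simp [Bd.add],
          by simp [Bd.add], ?_, by simp [Bd.add]⟩
        show 1 + dg1 (b :: l) ≤ Nat.succ (dg1 (b :: l))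
        omega))
      rw [one_mul] at h3
      exact h3

lemma Rep.b2 {w : ℤ} {r : Rad} {x : Pnt} (P : List (List ℤ)) :
    Rep w r x ⟨0, 0, 0, 0, dgx P, dgy P, 0⟩ (nm2 P) (iev2 w (w ^ r.rg) P)
      (Pool.EK71.ev2 x.f x.g P) := by
  induction P with
  | nil => exact Rep.zero _ _
  | cons a l ih =>
    have h1 := (Rep.b1 (w := w) (r := r) (x := x) a).le
      (N' := ⟨0, 0, 0, 0, dgx (a :: l), dgy (a :: l), 0⟩)
      ⟨le_rfl, le_rfl, le_rfl, le_rfl, Nat.zero_le _, Nat.le_max_left _ _, rfl⟩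
    cases l with
    | nil =>
      have h2 := h1.add (Rep.zero (w := w) (r := r) (x := x) ⟨0, 0, 0, 0, dgx [a], dgy [a], 0⟩ 0)
      have e1 : iev2 w (w ^ r.rg) [a] = iev1 (w ^ r.rg) a + 0 := by simp [iev2]
      have e2 : Pool.EK71.ev2 x.f x.g [a] = Pool.EK71.ev1 x.g a + 0 := by simp [Pool.EK71.ev2]
      rw [e1, e2]
      exact h2
    | cons b l =>
      have h2 := Rep.of_mon (w := w) (r := r) (x := x) (m := ⟨0, 0, 0, 0, 0, 1, 0⟩)
        (N := ⟨0, 0, 0, 0, 1, 0, 0⟩) (by simp [Mon.In]) (v := w) (φ := x.f)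
        (by simp [Mon.code]) (by simp [Mon.val])
      have h3 := h1.add ((h2.mul ih).le
        (N' := ⟨0, 0, 0, 0, dgx (a :: b :: l), dgy (a :: b :: l), 0⟩) (by
        refine ⟨by simp [Bd.add], by simp [Bd.add], by simp [Bd.add], by simp [Bd.add],
          ?_, ?_, by simp [Bd.add]⟩
        · show 1 + dgx (b :: l) ≤ Nat.succ (dgx (b :: l))
          omega
        · show 0 + dgy (b :: l) ≤ Nat.max (dg1 a) (dgy (b :: l))
          rw [Nat.zero_add]
          exact Nat.le_max_right _ _))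
      rw [one_mul] at h3
      exact h3

lemma Ex.rep {w : ℤ} {r : Rad} {x : Pnt} (e : Ex) (h : e.ok = true) :
    Rep w r x e.bd e.nm (e.ev (r.pt w)) (e.re x) := by
  induction e with
  | lit z =>
    have h1 : (⟨0, 0, 0, 0, 0, 0, 0⟩ : Mon).In ⟨0, 0, 0, 0, 0, 0, 0⟩ := by simp [Mon.In]
    have := Rep.mon (w := w) (r := r) (x := x) z h1
    simpa [Mon.code, Mon.val, Ex.ev, Ex.re, Ex.nm, Ex.bd] using this
  | va i =>
    match i with
    | 0 => exact Rep.of_mon (m := ⟨1, 0, 0, 0, 0, 0, 0⟩) (by simp [Mon.In, Ex.bd])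
            (by simp [Ex.ev, Rad.pt, Mon.code]) (by simp [Ex.re, Mon.val])
    | 1 => exact Rep.of_mon (m := ⟨0, 1, 0, 0, 0, 0, 0⟩) (by simp [Mon.In, Ex.bd])
            (by simp [Ex.ev, Rad.pt, Mon.code]) (by simp [Ex.re, Mon.val])
    | 2 => exact Rep.of_mon (m := ⟨0, 0, 1, 0, 0, 0, 0⟩) (by simp [Mon.In, Ex.bd])
            (by simp [Ex.ev, Mon.code]) (by simp [Ex.re, Mon.val])
    | 3 => exact Rep.of_mon (m := ⟨0, 0, 0, 1, 0, 0, 0⟩) (by simp [Mon.In, Ex.bd])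
            (by simp [Ex.ev, Rad.pt, Mon.code]) (by simp [Ex.re, Mon.val])
    | 4 => exact Rep.of_mon (m := ⟨0, 0, 0, 0, 1, 0, 0⟩) (by simp [Mon.In, Ex.bd])
            (by simp [Ex.ev, Rad.pt, Mon.code]) (by simp [Ex.re, Mon.val])
    | 5 => exact Rep.of_mon (m := ⟨0, 0, 0, 0, 0, 1, 0⟩) (by simp [Mon.In, Ex.bd])
            (by simp [Ex.ev, Rad.pt, Mon.code]) (by simp [Ex.re, Mon.val])
    | (k + 6) =>
      exact Rep.of_mon (m := ⟨0, 0, 0, 0, 0, 0, 1⟩) (by simp [Mon.In, Ex.bd])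
        (by simp [Ex.ev, Rad.pt, Mon.code]) (by simp [Ex.re, Mon.val])
  | add p q ihp ihq =>
    simp only [Ex.ok, Bool.and_eq_true] at h
    obtain ⟨⟨h1, h2⟩, h3⟩ := h
    have h3 := Nat.eq_of_beq_eq_true h3
    exact ((ihp h1).le (Bd.le_max_left _ _)).add ((ihq h2).le (Bd.le_max_right _ _ h3))
  | mul p q ihp ihq =>
    simp only [Ex.ok, Bool.and_eq_true] at h
    exact (ihp h.1).mul (ihq h.2)
  | sc z p ih =>
    simp only [Ex.ok] at h
    exact (ih h).smul z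
  | pow p n ih =>
    simp only [Ex.ok] at h
    have ih := ih h
    show Rep w r x (p.bd.smul n) (npow p.nm n) (ipow (p.ev (r.pt w)) n) (p.re x ^ n)
    induction n with
    | zero =>
      have h1 : (⟨0, 0, 0, 0, 0, 0, 0⟩ : Mon).In (p.bd.smul 0) := by simp [Mon.In, Bd.smul]
      have := Rep.of_mon (w := w) (r := r) (x := x) h1 (v := 1) (φ := 1) (by simp [Mon.code])
        (by simp [Mon.val])
      simpa [npow, ipow] using this
    | succ n ihn =>
      have h2 := ih.mul ihn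
      have e1 : p.bd.add (p.bd.smul n) = p.bd.smul (n + 1) := by
        simp only [Bd.add, Bd.smul]
        congr 1 <;> ring
      rw [e1] at h2
      rw [pow_succ, mul_comm (p.re x ^ n)]
      exact h2
  | bp P => exact Rep.b2 P

end Pool.Sos71
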