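import Pool.Agent.Helper71.Sos.W1

/-!
A faster evaluation of the same certificates: the products are summed group by group, so that
only few large numbers appear.
-/

set_option autoImplicit false

namespace Pool.Sos71

/-- difference of two natural numbers -/
structure Cell where
  p : ℕ
  n : ℕ

def Cell.z (c : Cell) : ℤ := (c.p : ℤ) - c.n

/-- sign (`true` for `+`) and size -/
structure Sg where
  s : Bool
  m : ℕ

def sgz (s : Bool) (m : ℕ) : ℤ := match s with
  | true => (m : ℤ)
  | false => -(m : ℤ)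

def Sg.z (x : Sg) : ℤ := sgz x.s x.m

def mkS (A T : ℕ) : Sg := ⟨Nat.ble T A, Nat.add (Nat.sub A T) (Nat.sub T A)⟩

lemma mkS_z (A T : ℕ) : (mkS A T).z = (A : ℤ) - T := by
  have h : (mkS A T).m = (A - T) + (T - A) := rfl
  have h' : (mkS A T).s = Nat.ble T A := rfl
  unfold Sg.z
  rw [h, h']
  rcases hb : Nat.ble T A with _ | _
  · have h1 : ¬ T ≤ A := by
      intro hh
      rw [Nat.ble_eq_true_of_le hh] at hb
      exact absurd hb (by decide)
    show -(((A - T) + (T - A) : ℕ) : ℤ) = _
    omega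
  · have h1 : T ≤ A := Nat.le_of_ble_eq_true hb
    show (((A - T) + (T - A) : ℕ) : ℤ) = _
    omega

noncomputable def addC (s : Bool) (m : ℕ) (c : Cell) : Cell :=
  Bool.rec ⟨c.p, Nat.add c.n m⟩ ⟨Nat.add c.p m, c.n⟩ s

lemma addC_z (s : Bool) (m : ℕ) (c : Cell) : (addC s m c).z = c.z + sgz s m := by
  cases s
  · show ((c.p : ℕ) : ℤ) - ((c.n + m : ℕ) : ℤ) = ((c.p : ℤ) - c.n) + -(m : ℤ)
    push_cast; ring
  · show ((c.p + m : ℕ) : ℤ) - (c.n : ℤ) = ((c.p : ℤ) - c.n) + (m : ℤ)
    push_cast; ring

noncomputable def eqs (a b : Bool) : Bool := Bool.rec (Bool.rec true false b) b a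

lemma sgz_mul (a b : Bool) (m n : ℕ) : sgz (eqs a b) (Nat.mul m n) = sgz a m * sgz b n := by
  have h : ((Nat.mul m n : ℕ) : ℤ) = (m : ℤ) * n := by
    show ((m * n : ℕ) : ℤ) = _
    push_cast; ring
  cases a <;> cases b <;> simp only [sgz, eqs, h] <;> ring

/-- `c_h + x y_h` -/
noncomputable def updR (x : Sg) (ys : List Sg) : List Cell → List Cell :=
  List.rec (fun c => c) (fun y _ ih c =>
    List.rec (addC (eqs x.s y.s) (Nat.mul x.m y.m) ⟨0, 0⟩ :: ih [])
      (fun d c' _ => addC (eqs x.s y.s) (Nat.mul x.m y.m) d :: ih c') c) ys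

lemma updR_nil (x : Sg) (c : List Cell) : updR x [] c = c := rfl
lemma updR_cn (x y : Sg) (ys : List Sg) : updR x (y :: ys) [] =
    addC (eqs x.s y.s) (Nat.mul x.m y.m) ⟨0, 0⟩ :: updR x ys [] := rfl
lemma updR_cc (x y : Sg) (ys : List Sg) (d : Cell) (c : List Cell) : updR x (y :: ys) (d :: c) =
    addC (eqs x.s y.s) (Nat.mul x.m y.m) d :: updR x ys c := rfl

/-- `c_gh + x_g x_h` -/
noncomputable def updM (xs : List Sg) : List (List Cell) → List (List Cell) :=
  List.rec (fun M => M) (fun x xs' ih M =>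
    List.rec (updR x (x :: xs') [] :: ih [])
      (fun r M' _ => updR x (x :: xs') r :: ih M') M) xs

lemma updM_nil (M : List (List Cell)) : updM [] M = M := rfl
lemma updM_cn (x : Sg) (xs : List Sg) : updM (x :: xs) [] =
    updR x (x :: xs) [] :: updM xs [] := rfl
lemma updM_cc (x : Sg) (xs : List Sg) (r : List Cell) (M : List (List Cell)) :
    updM (x :: xs) (r :: M) = updR x (x :: xs) r :: updM xs M := rfl

/-- `c_h + 2^a y_h` -/
noncomputable def updE (a : ℕ) (ys : List Sg) : List Cell → List Cell :=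
  List.rec (fun c => c) (fun y _ ih c =>
    List.rec (addC y.s (Nat.shiftLeft y.m a) ⟨0, 0⟩ :: ih [])
      (fun d c' _ => addC y.s (Nat.shiftLeft y.m a) d :: ih c') c) ys

lemma updE_nil (a : ℕ) (c : List Cell) : updE a [] c = c := rfl
lemma updE_cn (a : ℕ) (y : Sg) (ys : List Sg) : updE a (y :: ys) [] =
    addC y.s (Nat.shiftLeft y.m a) ⟨0, 0⟩ :: updE a ys [] := rfl
lemma updE_cc (a : ℕ) (y : Sg) (ys : List Sg) (d : Cell) (c : List Cell) :
    updE a (y :: ys) (d :: c) = addC y.s (Nat.shiftLeft y.m a) d :: updE a ys c := rfl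

/-- forces the evaluation of the numbers -/
noncomputable def okC (l : List Cell) : Bool :=
  List.rec true (fun c _ ih => Bool.rec false (Bool.rec false ih (Nat.ble 0 c.n)) (Nat.ble 0 c.p)) l

noncomputable def okM (l : List (List Cell)) : Bool :=
  List.rec true (fun r _ ih => Bool.rec false ih (okC r)) l

lemma okC_true (l : List Cell) : okC l = true := by
  induction l with
  | nil => rfl
  | cons c cs ih =>
    have h : okC (c :: cs) = Bool.rec false (Bool.rec false (okC cs) (Nat.ble 0 c.n))
      (Nat.ble 0 c.p) := rfl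
    rw [h, Nat.ble_eq_true_of_le (Nat.zero_le c.p), Nat.ble_eq_true_of_le (Nat.zero_le c.n)]
    exact ih

lemma okM_true (l : List (List Cell)) : okM l = true := by
  induction l with
  | nil => rfl
  | cons c cs ih =>
    have h : okM (c :: cs) = Bool.rec false (okM cs) (okC c) := rfl
    rw [h, okC_true]
    exact ih

def dotC : List Cell → List ℕ → ℤ
  | [], _ => 0
  | c :: cs, V => match V with
    | [] => 0
    | v :: vs => c.z * v + dotC cs vs

def dotS : List Sg → List ℕ → ℤ
  | [], _ => 0
  | c :: cs, V => match V with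
    | [] => 0
    | v :: vs => c.z * v + dotS cs vs

/-- `sum of c_gh v_g v_h` for one `g` -/
def Qr (r : List Cell) (v : ℕ) (vs : List ℕ) : ℤ := match r with
  | [] => 0
  | c :: cs => v * (c.z * v + 2 * dotC cs vs)

def Q : List (List Cell) → List ℕ → ℤ
  | [], _ => 0
  | r :: M, V => match V with
    | [] => 0
    | v :: vs => Qr r v vs + Q M vs

lemma dotC_nil (c : List Cell) : dotC c [] = 0 := by cases c <;> rfl

lemma dotS_nil (c : List Sg) : dotS c [] = 0 := by cases c <;> rfl

lemma Q_nil (c : List (List Cell)) : Q c [] = 0 := by cases c <;> rfl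

lemma zeroC : (⟨0, 0⟩ : Cell).z = 0 := rfl

lemma dotC_updR (x : Sg) (ys : List Sg) (c : List Cell) (vs : List ℕ) :
    dotC (updR x ys c) vs = dotC c vs + x.z * dotS ys vs := by
  induction ys generalizing c vs with
  | nil => rw [updR_nil]; simp [dotS]
  | cons y ys ih =>
    cases vs with
    | nil => rw [dotC_nil, dotC_nil, dotS_nil]; ring
    | cons v vs =>
      cases c with
      | nil =>
        rw [updR_cn]
        simp only [dotC, dotS]
        rw [ih, addC_z, zeroC, sgz_mul]
        unfold Sg.z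
        rw [show dotC ([] : List Cell) vs = 0 from rfl]
        ring
      | cons d c =>
        rw [updR_cc]
        simp only [dotC, dotS]
        rw [ih, addC_z, sgz_mul]
        unfold Sg.z
        ring

lemma dotC_updE (a : ℕ) (ys : List Sg) (c : List Cell) (vs : List ℕ) :
    dotC (updE a ys c) vs = dotC c vs + 2 ^ a * dotS ys vs := by
  have hs : ∀ y : Sg, sgz y.s (Nat.shiftLeft y.m a) = 2 ^ a * y.z := by
    intro y
    have h1 : ((Nat.shiftLeft y.m a : ℕ) : ℤ) = (y.m : ℤ) * 2 ^ a := by
      show ((y.m <<< a : ℕ) : ℤ) = _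
      rw [Nat.shiftLeft_eq]; push_cast; ring
    unfold Sg.z
    cases y.s
    · show -((Nat.shiftLeft y.m a : ℕ) : ℤ) = 2 ^ a * -(y.m : ℤ)
      rw [h1]; ring
    · show ((Nat.shiftLeft y.m a : ℕ) : ℤ) = 2 ^ a * (y.m : ℤ)
      rw [h1]; ring
  induction ys generalizing c vs with
  | nil => rw [updE_nil]; simp [dotS]
  | cons y ys ih =>
    cases vs with
    | nil => rw [dotC_nil, dotC_nil, dotS_nil]; ring
    | cons v vs =>
      cases c with
      | nil =>
        rw [updE_cn]
        simp only [dotC, dotS]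
        rw [ih, addC_z, zeroC, hs]
        rw [show dotC ([] : List Cell) vs = 0 from rfl]
        ring
      | cons d c =>
        rw [updE_cc]
        simp only [dotC, dotS]
        rw [ih, addC_z, hs]
        ring

lemma Q_updM (xs : List Sg) (M : List (List Cell)) (vs : List ℕ) :
    Q (updM xs M) vs = Q M vs + dotS xs vs * dotS xs vs := by
  induction xs generalizing M vs with
  | nil => rw [updM_nil]; simp [dotS]
  | cons x xs ih =>
    cases vs with
    | nil => rw [Q_nil, Q_nil, dotS_nil]; ring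
    | cons v vs =>
      have key : ∀ r : List Cell, Qr (updR x (x :: xs) r) v vs =
          Qr r v vs + v * (x.z * x.z * v + 2 * (x.z * dotS xs vs)) := by
        intro r
        cases r with
        | nil =>
          rw [updR_cn]
          simp only [Qr]
          rw [dotC_updR, addC_z, zeroC, sgz_mul]
          rw [show dotC ([] : List Cell) vs = 0 from rfl]
          unfold Sg.z
          ring
        | cons d c =>
          rw [updR_cc]
          simp only [Qr]
          rw [dotC_updR, addC_z, sgz_mul]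
          unfold Sg.z
          ring
      cases M with
      | nil =>
        rw [updM_cn]
        simp only [Q, dotS]
        rw [ih, key]
        rw [show Q ([] : List (List Cell)) vs = 0 from rfl, show Qr [] v vs = 0 from rfl]
        ring
      | cons r M =>
        rw [updM_cc]
        simp only [Q, dotS]
        rw [ih, key]
        ring

/-! ### groups -/

/-- sums of `2^a` over the groups, times `off` -/
def gT (off : ℕ) : List Itm → ℕ → List ℕ
  | [], _ => []
  | i :: it, t => match i.e with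
    | false => gT off it (Nat.add t (Nat.shiftLeft off i.a))
    | true => Nat.add t (Nat.shiftLeft off i.a) :: gT off it 0

/-- factors of the groups -/
def gF : List Itm → List Fac
  | [] => []
  | i :: it => match i.e with
    | false => gF it
    | true => i.f :: gF it

def gV (it : List Itm) : List ℕ := (gF it).map Fac.V

/-- digits of `p` summed over the groups -/
noncomputable def grp (B : ℕ) (it : List Itm) : ℕ → ℕ → List ℕ → List Sg :=
  List.rec (fun _ _ _ => [])
    (fun i _ ih p acc Ts =>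
      Bool.rec (ih (Nat.div p B) (Nat.add acc (Nat.shiftLeft (Nat.mod p B) i.a)) Ts)
        (List.rec [] (fun T Ts' _ => mkS (Nat.add acc (Nat.shiftLeft (Nat.mod p B) i.a)) T ::
          ih (Nat.div p B) 0 Ts') Ts) i.e) it

lemma grp_nil (B p acc : ℕ) (Ts : List ℕ) : grp B [] p acc Ts = [] := rfl

lemma grp_f {B : ℕ} {i : Itm} (h : i.e = false) (it : List Itm) (p acc : ℕ) (Ts : List ℕ) :
    grp B (i :: it) p acc Ts =
      grp B it (Nat.div p B) (Nat.add acc (Nat.shiftLeft (Nat.mod p B) i.a)) Ts := by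
  have h1 : grp B (i :: it) p acc Ts = Bool.rec
      (grp B it (Nat.div p B) (Nat.add acc (Nat.shiftLeft (Nat.mod p B) i.a)) Ts)
        (List.rec [] (fun T Ts' _ => mkS (Nat.add acc (Nat.shiftLeft (Nat.mod p B) i.a)) T ::
          grp B it (Nat.div p B) 0 Ts') Ts) i.e := rfl
  rw [h1, h]

lemma grp_t {B : ℕ} {i : Itm} (h : i.e = true) (it : List Itm) (p acc T : ℕ) (Ts : List ℕ) :
    grp B (i :: it) p acc (T :: Ts) =
      mkS (Nat.add acc (Nat.shiftLeft (Nat.mod p B) i.a)) T :: grp B it (Nat.div p B) 0 Ts := by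
  have h1 : grp B (i :: it) p acc (T :: Ts) = Bool.rec
      (grp B it (Nat.div p B) (Nat.add acc (Nat.shiftLeft (Nat.mod p B) i.a)) (T :: Ts))
        (mkS (Nat.add acc (Nat.shiftLeft (Nat.mod p B) i.a)) T ::
          grp B it (Nat.div p B) 0 Ts) i.e := rfl
  rw [h1, h]

def decT (c : ℕ) : List ℕ → List ℕ
  | [] => []
  | T :: Ts => Nat.sub T c :: Ts

def tlT : List ℕ → List ℕ
  | [] => []
  | _ :: Ts => Ts

/-- every group is closed -/
def Ge : List Itm → Prop
  | [] => True
  | i :: it => (i.e = true ∨ it ≠ []) ∧ Ge it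

lemma decT_gT (off c : ℕ) (it : List Itm) (t : ℕ) :
    decT c (gT off it (t + c)) = gT off it t := by
  induction it generalizing t with
  | nil => rfl
  | cons i it ih =>
    rw [gT, gT]
    rcases i.e with _ | _
    · show decT c (gT off it (t + c + off <<< i.a)) = gT off it (t + off <<< i.a)
      rw [add_right_comm]
      exact ih _
    · show Nat.sub (t + c + off <<< i.a) c :: gT off it 0 = (t + off <<< i.a) :: gT off it 0
      congr 1
      show t + c + off <<< i.a - c = t + off <<< i.a
      generalize off <<< i.a = y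
      omega

section
variable {k : ℕ} {r : Rad} {N : Bd} {nf : ℕ}

lemma dot_grp {B off : ℕ} (it : List Itm) (h : GdW k r N nf it) (he : Ge it) (p acc t : ℕ)
    (h0 : it = [] → acc = t) :
    dotS (grp B it p acc (gT off it t)) (gV it) =
      ((acc : ℤ) - t) * eb it + ((sd B it p : ℤ) - off * (tot it : ℤ)) := by
  induction it generalizing p acc t with
  | nil => rw [grp_nil]; simp [dotS, sd, tot, h0 rfl]
  | cons i it ih =>
    obtain ⟨_, h3, h4⟩ := h
    obtain ⟨e1, e2⟩ := he
    have e3 : tot (i :: it) = i.v + tot it := rfl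
    rw [gT, sd, Itm.v_eq, e3, Itm.v_eq]
    rw [eb] at h3 ⊢
    have hs : ∀ y : ℕ, (((y <<< i.a : ℕ)) : ℤ) = (y : ℤ) * 2 ^ i.a := by
      intro y; rw [Nat.shiftLeft_eq]; push_cast; ring
    rcases ho : i.e with _ | _
    · simp only [ho] at h3 ⊢
      have hne : it ≠ [] := by
        rcases e1 with e1 | e1
        · rw [ho] at e1; exact absurd e1 (by decide)
        · exact e1
      have hV : gV (i :: it) = gV it := by
        unfold gV; rw [gF, ho]
      rw [hV, grp_f ho]
      rw [ih h4 e2 _ _ _ (fun hh => absurd hh hne)]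
      show ((((acc + (p % B) <<< i.a : ℕ)) : ℤ) - ((t + off <<< i.a : ℕ) : ℤ)) * (eb it : ℤ)
        + (((sd B it (p / B) : ℕ) : ℤ) - off * (tot it : ℤ)) = _
      rw [h3]
      generalize p % B = d
      generalize p / B = p'
      push_cast [hs]
      ring
    · simp only [ho] at h3 ⊢
      have hV : gV (i :: it) = i.f.V :: gV it := by
        unfold gV; rw [gF, ho]; rfl
      rw [hV, grp_t ho]
      simp only [dotS]
      rw [ih h4 e2 _ _ _ (fun _ => rfl), mkS_z]
      show ((((acc + (p % B) <<< i.a : ℕ)) : ℤ) - ((t + off <<< i.a : ℕ) : ℤ)) * (i.f.V : ℤ)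
        + ((((0 : ℕ) : ℤ) - ((0 : ℕ) : ℤ)) * (eb it : ℤ)
          + (((sd B it (p / B) : ℕ) : ℤ) - off * (tot it : ℤ))) = _
      generalize p % B = d
      generalize p / B = p'
      push_cast [hs]
      ring

lemma gF_head {it : List Itm} {f : Fac} {fs : List Fac} (h : gF it = f :: fs) : f.V = eb it := by
  induction it with
  | nil => simp [gF] at h
  | cons i it ih =>
    rw [gF] at h
    rw [eb]
    rcases ho : i.e with _ | _
    · simp only [ho] at h ⊢
      exact ih h
    · simp only [ho, List.cons.injEq] at h ⊢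
      rw [h.1]

/-! ### evaluation of the accumulated forms -/

/-- `sum of c_h f_h` -/
noncomputable def finC : List Fac → List Cell → Cell
  | [], _ => ⟨0, 0⟩
  | f :: fs, C => match C with
    | [] => ⟨0, 0⟩
    | c :: cs => addC (mkS c.p c.n).s (f.ap (mkS c.p c.n).m) (finC fs cs)

lemma sgz_ap (f : Fac) (x : Sg) : sgz x.s (f.ap x.m) = x.z * f.V := by
  rw [Fac.ap_eq]
  unfold Sg.z sgz
  cases x.s
  · show -((x.m * f.V : ℕ) : ℤ) = -(x.m : ℤ) * f.V
    push_cast; ring
  · show ((x.m * f.V : ℕ) : ℤ) = (x.m : ℤ) * f.V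
    push_cast; ring

lemma finC_z (fs : List Fac) (C : List Cell) : (finC fs C).z = dotC C (fs.map Fac.V) := by
  induction fs generalizing C with
  | nil => rw [List.map_nil, dotC_nil]; rfl
  | cons f fs ih =>
    cases C with
    | nil => rfl
    | cons c cs =>
      rw [finC]
      simp only [List.map_cons, dotC]
      rw [addC_z, ih, sgz_ap, mkS_z]
      unfold Cell.z
      ring

/-- `acc + f * (sum of c_h f_h)` -/
noncomputable def finE (f : Fac) (fs : List Fac) (C : List Cell) (acc : Cell) : Cell :=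
  addC (mkS (finC fs C).p (finC fs C).n).s (f.ap (mkS (finC fs C).p (finC fs C).n).m) acc

lemma finE_z (f : Fac) (fs : List Fac) (C : List Cell) (acc : Cell) :
    (finE f fs C acc).z = acc.z + f.V * dotC C (fs.map Fac.V) := by
  rw [finE, addC_z, sgz_ap, mkS_z, ← finC_z]
  unfold Cell.z
  ring

def dbl (c : Cell) : Cell := ⟨Nat.mul 2 c.p, Nat.mul 2 c.n⟩

lemma dbl_z (c : Cell) : (dbl c).z = 2 * c.z := by
  show ((2 * c.p : ℕ) : ℤ) - ((2 * c.n : ℕ) : ℤ) = 2 * ((c.p : ℤ) - c.n)
  push_cast; ring

/-- `acc + f (c f + 2 sum of c_h f_h)` -/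
noncomputable def finR (f : Fac) (fs : List Fac) (c : Cell) (cs : List Cell) (acc : Cell) : Cell :=
  match addC (mkS c.p c.n).s (f.ap (mkS c.p c.n).m) (dbl (finC fs cs)) with
  | ⟨p, n⟩ => addC (mkS p n).s (f.ap (mkS p n).m) acc

noncomputable def finRow (f : Fac) (fs : List Fac) (r : List Cell) (acc : Cell) : Cell := match r with
  | [] => acc
  | c :: cs => finR f fs c cs acc

lemma finRow_z (f : Fac) (fs : List Fac) (r : List Cell) (acc : Cell) :
    (finRow f fs r acc).z = acc.z + Qr r f.V (fs.map Fac.V) := by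
  cases r with
  | nil => simp [finRow, Qr]
  | cons c cs =>
    have h1 : finRow f fs (c :: cs) acc = addC
        (mkS (addC (mkS c.p c.n).s (f.ap (mkS c.p c.n).m) (dbl (finC fs cs))).p
          (addC (mkS c.p c.n).s (f.ap (mkS c.p c.n).m) (dbl (finC fs cs))).n).s
        (f.ap (mkS (addC (mkS c.p c.n).s (f.ap (mkS c.p c.n).m) (dbl (finC fs cs))).p
          (addC (mkS c.p c.n).s (f.ap (mkS c.p c.n).m) (dbl (finC fs cs))).n).m) acc := rfl
    have h2 := addC_z (mkS c.p c.n).s (f.ap (mkS c.p c.n).m) (dbl (finC fs cs))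
    rw [sgz_ap, mkS_z, dbl_z, finC_z] at h2
    rw [h1, addC_z, sgz_ap, mkS_z]
    unfold Cell.z at h2
    rw [h2]
    simp only [Qr]
    unfold Cell.z
    ring

noncomputable def finM : List Fac → List (List Cell) → Cell
  | [], _ => ⟨0, 0⟩
  | f :: fs, M => match M with
    | [] => ⟨0, 0⟩
    | r :: M' => finRow f fs r (finM fs M')

lemma finM_z (fs : List Fac) (M : List (List Cell)) : (finM fs M).z = Q M (fs.map Fac.V) := by
  induction fs generalizing M with
  | nil => rw [List.map_nil, Q_nil]; rfl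
  | cons f fs ih =>
    cases M with
    | nil => rfl
    | cons r M =>
      rw [finM]
      simp only [List.map_cons, Q]
      rw [finRow_z, ih]
      ring

/-! ### the squares -/

noncomputable def sqF (B off : ℕ) (it : List Itm) :
    List ℕ → List ℕ → List Fac → List (List Cell) → Cell :=
  List.rec (fun _ _ Fs M => finM Fs M)
    (fun i it' ih Ls Ts Fs M =>
      List.rec (finM Fs M)
        (fun L Ls' _ =>
          Bool.rec ⟨0, 0⟩
            (Bool.rec (ih Ls' (decT (Nat.shiftLeft off i.a) Ts) Fs (updM (grp B (i :: it') L 0 Ts) M))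
              (List.rec ⟨0, 0⟩ (fun f Fs' _ =>
                List.rec ⟨0, 0⟩ (fun r M' _ => finRow f Fs' r (ih Ls' (tlT Ts) Fs' M'))
                  (updM (grp B (i :: it') L 0 Ts) M)) Fs) i.e)
            (okM (updM (grp B (i :: it') L 0 Ts) M))) Ls) it

lemma sqF_nil (B off : ℕ) (Ls Ts : List ℕ) (Fs : List Fac) (M : List (List Cell)) :
    sqF B off [] Ls Ts Fs M = finM Fs M := rfl

lemma sqF_cn (B off : ℕ) (i : Itm) (it : List Itm) (Ts : List ℕ) (Fs : List Fac)
    (M : List (List Cell)) : sqF B off (i :: it) [] Ts Fs M = finM Fs M := rfl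

lemma sqF_f {B off : ℕ} {i : Itm} (h : i.e = false) (it : List Itm) (L : ℕ) (Ls Ts : List ℕ)
    (Fs : List Fac) (M : List (List Cell)) :
    sqF B off (i :: it) (L :: Ls) Ts Fs M = sqF B off it Ls (decT (Nat.shiftLeft off i.a) Ts) Fs
            (updM (grp B (i :: it) L 0 Ts) M) := by
  have h1 : sqF B off (i :: it) (L :: Ls) Ts Fs M = Bool.rec ⟨0, 0⟩
            (Bool.rec (sqF B off it Ls (decT (Nat.shiftLeft off i.a) Ts) Fs
              (updM (grp B (i :: it) L 0 Ts) M))
              (List.rec ⟨0, 0⟩ (fun f Fs' _ =>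
                List.rec ⟨0, 0⟩ (fun r M' _ => finRow f Fs' r (sqF B off it Ls (tlT Ts) Fs' M'))
                  (updM (grp B (i :: it) L 0 Ts) M)) Fs) i.e)
            (okM (updM (grp B (i :: it) L 0 Ts) M)) := rfl
  rw [h1, okM_true, h]

lemma sqF_t {B off : ℕ} {i : Itm} (h : i.e = true) (it : List Itm) (L : ℕ) (Ls Ts : List ℕ)
    (f : Fac) (Fs : List Fac) (M : List (List Cell)) {r : List Cell} {M' : List (List Cell)}
    (hM : updM (grp B (i :: it) L 0 Ts) M = r :: M') :
    sqF B off (i :: it) (L :: Ls) Ts (f :: Fs) M =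
      finRow f Fs r (sqF B off it Ls (tlT Ts) Fs M') := by
  have h1 : sqF B off (i :: it) (L :: Ls) Ts (f :: Fs) M = Bool.rec ⟨0, 0⟩
            (Bool.rec (sqF B off it Ls (decT (Nat.shiftLeft off i.a) Ts) (f :: Fs)
              (updM (grp B (i :: it) L 0 Ts) M))
                (List.rec ⟨0, 0⟩ (fun r M' _ => finRow f Fs r (sqF B off it Ls (tlT Ts) Fs M'))
                  (updM (grp B (i :: it) L 0 Ts) M)) i.e)
            (okM (updM (grp B (i :: it) L 0 Ts) M)) := rfl
  rw [h1, okM_true, h, hM]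

lemma sqF_z {B off : ℕ} (it : List Itm) (h : GdW k r N nf it) (he : Ge it) (Ls : List ℕ)
    (M : List (List Cell)) :
    (sqF B off it Ls (gT off it 0) (gF it) M).z =
      Q M (gV it) + ((sqs B off it Ls (tot it) : ℕ) : ℤ) := by
  induction it generalizing Ls M with
  | nil =>
    rw [sqF_nil, finM_z]
    show _ = Q M (gV []) + ((0 : ℕ) : ℤ)
    rw [Nat.cast_zero, add_zero]; rfl
  | cons i it ih =>
    cases Ls with
    | nil =>
      rw [sqF_cn, finM_z]
      show _ = Q M (gV (i :: it)) + ((0 : ℕ) : ℤ)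
      rw [Nat.cast_zero, add_zero]; rfl
    | cons L Ls =>
      have hd := dot_grp (B := B) (off := off) (i :: it) h he L 0 0 (fun _ => rfl)
      have hq := Q_updM (grp B (i :: it) L 0 (gT off (i :: it) 0)) M (gV (i :: it))
      rw [hd] at hq
      have hs : ((sqs B off (i :: it) (L :: Ls) (tot (i :: it)) : ℕ) : ℤ) =
          ((sd B (i :: it) L : ℤ) - off * (tot (i :: it) : ℤ))
            * ((sd B (i :: it) L : ℤ) - off * (tot (i :: it) : ℤ))
          + ((sqs B off it Ls (tot it) : ℕ) : ℤ) := by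
        rw [sqs, tot_sub, lin_eqW (i :: it) h, zero_mul, zero_add]
        show ((sqd (sd B (i :: it) L) (off * tot (i :: it)) + sqs B off it Ls (tot it) : ℕ) : ℤ) = _
        push_cast
        rw [sqd_eq]
        push_cast; ring
      rw [hs]
      rcases ho : i.e with _ | _
      · have hT : decT (Nat.shiftLeft off i.a) (gT off (i :: it) 0) = gT off it 0 := by
          rw [gT, ho]
          exact decT_gT off _ it 0
        have hF : gF (i :: it) = gF it := by rw [gF, ho]
        have hV : gV (i :: it) = gV it := by unfold gV; rw [hF]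
        rw [hV] at hq
        rw [hV, sqF_f ho]
        rw [hT, hF, ih h.2.2 he.2, hq]
        push_cast; ring
      · have hT : tlT (gT off (i :: it) 0) = gT off it 0 := by
          rw [gT, ho]; rfl
        have hF : gF (i :: it) = i.f :: gF it := by rw [gF, ho]
        have hV : gV (i :: it) = i.f.V :: gV it := by unfold gV; rw [hF]; rfl
        rw [hF]
        rcases hM : updM (grp B (i :: it) L 0 (gT off (i :: it) 0)) M with _ | ⟨r, M'⟩
        · exfalso
          have : grp B (i :: it) L 0 (gT off (i :: it) 0) ≠ [] := by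
            rw [gT, ho]
            simp only
            rw [grp_t ho]; simp
          revert hM
          rcases hg : grp B (i :: it) L 0 (gT off (i :: it) 0) with _ | ⟨x, xs⟩
          · exact absurd hg this
          · cases M with
            | nil => rw [updM_cn]; simp
            | cons r M => rw [updM_cc]; simp
        · rw [sqF_t ho _ _ _ _ _ _ _ hM, hT]
          rw [hM, hV] at hq
          simp only [Q] at hq
          rw [finRow_z, ih h.2.2 he.2, hV]
          have hV' : (gF it).map Fac.V = gV it := rfl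
          rw [hV']
          push_cast at hq ⊢
          linarith

/-! ### the mixed terms -/

noncomputable def flE (Fs : List Fac) (C : List Cell) : Cell := match Fs with
  | [] => ⟨0, 0⟩
  | f :: fs => finE f (f :: fs) C ⟨0, 0⟩

noncomputable def exF (B off : ℕ) (it : List Itm) :
    List ℕ → List ℕ → List Fac → List Cell → Cell :=
  List.rec (fun _ _ _ _ => ⟨0, 0⟩)
    (fun i it' ih Es Ts Fs C =>
      List.rec (flE Fs C)
        (fun E Es' _ =>
          Bool.rec ⟨0, 0⟩
            (Bool.rec (ih Es' (decT (Nat.shiftLeft off i.a) Ts) Fs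
                (updE i.a (grp B (i :: it') E 0 Ts) C))
              (List.rec ⟨0, 0⟩ (fun f Fs' _ =>
                finE f (f :: Fs') (updE i.a (grp B (i :: it') E 0 Ts) C)
                  (ih Es' (tlT Ts) Fs' [])) Fs) i.e)
            (okC (updE i.a (grp B (i :: it') E 0 Ts) C))) Es) it

lemma exF_cn (B off : ℕ) (i : Itm) (it : List Itm) (Ts : List ℕ) (Fs : List Fac)
    (C : List Cell) : exF B off (i :: it) [] Ts Fs C = flE Fs C := rfl

lemma exF_f {B off : ℕ} {i : Itm} (h : i.e = false) (it : List Itm) (E : ℕ) (Es Ts : List ℕ)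
    (Fs : List Fac) (C : List Cell) :
    exF B off (i :: it) (E :: Es) Ts Fs C = exF B off it Es (decT (Nat.shiftLeft off i.a) Ts) Fs
            (updE i.a (grp B (i :: it) E 0 Ts) C) := by
  have h1 : exF B off (i :: it) (E :: Es) Ts Fs C = Bool.rec ⟨0, 0⟩
            (Bool.rec (exF B off it Es (decT (Nat.shiftLeft off i.a) Ts) Fs
                (updE i.a (grp B (i :: it) E 0 Ts) C))
              (List.rec ⟨0, 0⟩ (fun f Fs' _ =>
                finE f (f :: Fs') (updE i.a (grp B (i :: it) E 0 Ts) C)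
                  (exF B off it Es (tlT Ts) Fs' [])) Fs) i.e)
            (okC (updE i.a (grp B (i :: it) E 0 Ts) C)) := rfl
  rw [h1, okC_true, h]

lemma exF_t {B off : ℕ} {i : Itm} (h : i.e = true) (it : List Itm) (E : ℕ) (Es Ts : List ℕ)
    (f : Fac) (Fs : List Fac) (C : List Cell) :
    exF B off (i :: it) (E :: Es) Ts (f :: Fs) C =
      finE f (f :: Fs) (updE i.a (grp B (i :: it) E 0 Ts) C) (exF B off it Es (tlT Ts) Fs []) := by
  have h1 : exF B off (i :: it) (E :: Es) Ts (f :: Fs) C = Bool.rec ⟨0, 0⟩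
            (Bool.rec (exF B off it Es (decT (Nat.shiftLeft off i.a) Ts) (f :: Fs)
                (updE i.a (grp B (i :: it) E 0 Ts) C))
              (finE f (f :: Fs) (updE i.a (grp B (i :: it) E 0 Ts) C)
                  (exF B off it Es (tlT Ts) Fs [])) i.e)
            (okC (updE i.a (grp B (i :: it) E 0 Ts) C)) := rfl
  rw [h1, okC_true, h]

lemma flE_z (it : List Itm) (C : List Cell) : (flE (gF it) C).z = eb it * dotC C (gV it) := by
  unfold gV
  rcases hF : gF it with _ | ⟨f, fs⟩
  · rw [List.map_nil, dotC_nil, mul_zero]; rfl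
  · show (finE f (f :: fs) C ⟨0, 0⟩).z = _
    rw [finE_z, gF_head hF, zeroC, zero_add]

lemma exF_z {B off : ℕ} (it : List Itm) (h : GdW k r N nf it) (he : Ge it) (Es : List ℕ)
    (C : List Cell) :
    (exF B off it Es (gT off it 0) (gF it) C).z =
      eb it * dotC C (gV it) +
        (((eps B it Es : ℕ) : ℤ) - ((ens off it Es (tot it) : ℕ) : ℤ)) := by
  induction it generalizing Es C with
  | nil =>
    have : gV [] = [] := rfl
    rw [this, dotC_nil]
    show ((0 : ℕ) : ℤ) - ((0 : ℕ) : ℤ) = _
    simp [eps, ens]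
  | cons i it ih =>
    cases Es with
    | nil =>
      rw [exF_cn, flE_z]
      show _ = _ + (((0 : ℕ) : ℤ) - ((0 : ℕ) : ℤ))
      ring
    | cons E Es =>
      have hd := dot_grp (B := B) (off := off) (i :: it) h he E 0 0 (fun _ => rfl)
      have hq := dotC_updE i.a (grp B (i :: it) E 0 (gT off (i :: it) 0)) C (gV (i :: it))
      rw [hd] at hq
      have e1 : ((eps B (i :: it) (E :: Es) : ℕ) : ℤ)
            - ((ens off (i :: it) (E :: Es) (tot (i :: it)) : ℕ) : ℤ) =
          ((sd B (i :: it) E : ℤ) - off * (tot (i :: it) : ℤ)) * (i.v : ℤ)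
          + (((eps B it Es : ℕ) : ℤ) - ((ens off it Es (tot it) : ℕ) : ℤ)) := by
        rw [eps, ens, tot_sub, lin_eqW (i :: it) h, zero_mul, zero_add, Itm.ap_eq, Itm.ap_eq]
        show ((sd B (i :: it) E * i.v + eps B it Es : ℕ) : ℤ)
          - (((off * tot (i :: it)) * i.v + ens off it Es (tot it) : ℕ) : ℤ) = _
        push_cast; ring
      have hv : (i.v : ℤ) = 2 ^ i.a * (eb (i :: it) : ℤ) := by
        rw [Itm.v_eq, h.2.1]; push_cast; ring
      rw [e1]
      rcases ho : i.e with _ | _
      · have hT : decT (Nat.shiftLeft off i.a) (gT off (i :: it) 0) = gT off it 0 := by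
          rw [gT, ho]
          exact decT_gT off _ it 0
        have hF : gF (i :: it) = gF it := by rw [gF, ho]
        have hV : gV (i :: it) = gV it := by unfold gV; rw [hF]
        have hE : eb (i :: it) = eb it := by rw [eb, ho]
        rw [hV] at hq
        rw [hE] at hv hq
        rw [hV, hE, exF_f ho]
        rw [hT, hF, ih h.2.2 he.2, hq, hv]
        push_cast; ring
      · have hT : tlT (gT off (i :: it) 0) = gT off it 0 := by
          rw [gT, ho]; rfl
        have hF : gF (i :: it) = i.f :: gF it := by rw [gF, ho]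
        have hE : eb (i :: it) = i.f.V := by rw [eb, ho]
        rw [hF, exF_t ho, hT]
        have hV' : (i.f :: gF it).map Fac.V = gV (i :: it) := by unfold gV; rw [hF]
        rw [finE_z, ih h.2.2 he.2, hV', hq, hv, hE]
        rw [show dotC ([] : List Cell) (gV it) = 0 from rfl]
        push_cast; ring

/-! ### the diagonal -/

def z2F : List Itm → ℕ → ℕ
  | [], _ => 0
  | i :: it, acc => match i.e with
    | false => z2F it (Nat.add acc (Nat.shiftLeft 1 (Nat.mul 2 i.a)))
    | true => Nat.add (i.f.ap (i.f.ap (Nat.add acc (Nat.shiftLeft 1 (Nat.mul 2 i.a)))))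
        (z2F it 0)

lemma z2F_eq (it : List Itm) (h : GdW k r N nf it) (he : Ge it) (acc : ℕ)
    (h0 : it = [] → acc = 0) : z2F it acc = acc * (eb it * eb it) + z2 it := by
  induction it generalizing acc with
  | nil => simp [z2F, z2, h0 rfl]
  | cons i it ih =>
    obtain ⟨_, h3, h4⟩ := h
    obtain ⟨e1, e2⟩ := he
    rw [z2F, z2, Itm.v_eq]
    rw [eb] at h3 ⊢
    have hs : (1 : ℕ) <<< (2 * i.a) = 2 ^ i.a * 2 ^ i.a := by
      rw [Nat.shiftLeft_eq, one_mul, two_mul, pow_add]
    rcases ho : i.e with _ | _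
    · simp only [ho] at h3 ⊢
      have hne : it ≠ [] := by
        rcases e1 with e1 | e1
        · rw [ho] at e1; exact absurd e1 (by decide)
        · exact e1
      rw [ih h4 e2 _ (fun hh => absurd hh hne)]
      show (acc + 1 <<< (2 * i.a)) * (eb it * eb it) + z2 it =
        acc * (eb it * eb it) + (2 ^ i.a * i.f.V * (2 ^ i.a * i.f.V) + z2 it)
      rw [hs, h3]; ring
    · simp only [ho] at h3 ⊢
      rw [ih h4 e2 _ (fun _ => rfl), Fac.ap_eq, Fac.ap_eq]
      show (acc + 1 <<< (2 * i.a)) * i.f.V * i.f.V + (0 * (eb it * eb it) + z2 it) =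
        acc * (i.f.V * i.f.V) + (2 ^ i.a * i.f.V * (2 ^ i.a * i.f.V) + z2 it)
      rw [hs]; ring

end

def dz2F (d : ℕ) (it : List Itm) : ℕ := match d with
  | 0 => 0
  | n + 1 => Nat.mul (Nat.succ n) (z2F it 0)

/-! ### blocks -/

def toI (c : Cell) : ℤ := match c with
  | ⟨p, n⟩ => Int.sub (Int.ofNat p) (Int.ofNat n)

lemma toI_eq (c : Cell) : toI c = c.z := rfl

noncomputable def Blk.vF (b : Blk) : ℤ :=
  Int.add (toI (sqF b.B b.off b.its b.L (gT b.off b.its 0) (gF b.its) []))
    (Int.add (Int.ofNat (dz2F b.dl b.its))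
      (toI (exF b.BE b.offE b.its b.E (gT b.offE b.its 0) (gF b.its) [])))

lemma Ge_of_gdbW {k : ℕ} {r : Rad} {N : Bd} {nf : ℕ} {it : List Itm}
    (h : gdbW k r N nf it = true) : Ge it := by
  induction it with
  | nil => trivial
  | cons i it ih =>
    simp only [gdbW, Bool.and_eq_true, Bool.or_eq_true] at h
    obtain ⟨⟨_, h2⟩, h3⟩ := h
    refine ⟨?_, ih h3⟩
    rcases h2 with h2 | h2
    · exact Or.inl h2
    · right
      intro hh
      rw [hh] at h2
      exact absurd h2 Bool.false_ne_true

lemma Blk.vF_eq {b : Blk} {k : ℕ} {r : Rad} (h : b.okW k r = true) :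
    b.vF = Int.sub (Int.ofNat b.vp) (Int.ofNat b.vn) := by
  simp only [Blk.okW, Bool.and_eq_true] at h
  have h1 := h.1.1.1.1.1.1
  have hg := gdbW_sound h1
  have he := Ge_of_gdbW h1
  have a1 := sqF_z (B := b.B) (off := b.off) b.its hg he b.L []
  have a2 := exF_z (B := b.BE) (off := b.offE) b.its hg he b.E []
  have a3 : dz2F b.dl b.its = b.dl * z2 b.its := by
    have := z2F_eq b.its hg he 0 (fun _ => rfl)
    rcases hd : b.dl with _ | n
    · rw [Nat.zero_mul]; rfl
    · show (n + 1) * z2F b.its 0 = _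
      rw [this, zero_mul, zero_add]
  rw [show Q ([] : List (List Cell)) (gV b.its) = 0 from rfl, zero_add] at a1
  rw [show dotC ([] : List Cell) (gV b.its) = 0 from rfl, mul_zero, zero_add] at a2
  unfold Blk.vF
  rw [toI_eq, toI_eq, a1, a2, a3]
  have e2 : b.vp = sqs b.B b.off b.its b.L (tot b.its)
      + (dz2 b.dl b.its + eps b.BE b.its b.E) := rfl
  show ((sqs b.B b.off b.its b.L (tot b.its) : ℕ) : ℤ) + (((b.dl * z2 b.its : ℕ) : ℤ)
    + (((eps b.BE b.its b.E : ℕ) : ℤ) - ((ens b.offE b.its b.E (tot b.its) : ℕ) : ℤ))) =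
    ((b.vp : ℕ) : ℤ) - ((b.vn : ℕ) : ℤ)
  rw [e2, Blk.vn, dz2_eq]; push_cast; ring

noncomputable def bsumF (X : IPt) : List Blk → ℤ
  | [] => 0
  | b :: bs => Int.add (Int.mul (b.mult.ev X) b.vF) (bsumF X bs)

lemma bsumF_eq {k : ℕ} {r : Rad} {N : Bd} (X : IPt) (bs : List Blk) (h : bokW k r N bs = true) :
    bsumF X bs = bsum X bs := by
  induction bs with
  | nil => rfl
  | cons b bs ih =>
    simp only [bokW, Bool.and_eq_true] at h
    rw [bsumF, bsum, ih h.2, Blk.vF_eq h.1.1]

noncomputable def Cert.checkF (c : Cert) : Bool :=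
  c.r.okb c.N && c.target.okW && c.target.bdW.leb c.N && Nat.blt 0 c.s && bokW c.k c.r c.N c.blocks &&
    Nat.blt (Nat.add (Nat.mul c.s c.target.nm) (bnm c.blocks)) (Nat.pow 2 c.k) &&
    eqi (Int.mul (Int.ofNat c.s) (c.target.ev (ipt c.k c.r))) (bsumF (ipt c.k c.r) c.blocks)

theorem Cert.checkW_of_F {c : Cert} (h : c.checkF = true) : c.checkW = true := by
  have h' := h
  simp only [Cert.checkF, Bool.and_eq_true] at h
  obtain ⟨⟨⟨⟨⟨⟨h1, h2⟩, h3⟩, h4⟩, h5⟩, h6⟩, h7⟩ := h
  rw [bsumF_eq _ _ h5] at h7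
  simp only [Cert.checkW, Bool.and_eq_true]
  exact ⟨⟨⟨⟨⟨⟨h1, h2⟩, h3⟩, h4⟩, h5⟩, h6⟩, h7⟩

end Pool.Sos71
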