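import Pool.Agent.Helper71.Sos.Fast

/-!
The fast evaluation for the checker with the weights `S, C : 1`, `P, R : 2`.
-/

set_option autoImplicit false

namespace Pool.Sos71

section
variable {k : ℕ} {r : Rad} {N : Bd} {nf : ℕ}

lemma dot_grpP {B off : ℕ} (it : List Itm) (h : Gd k r N nf it) (he : Ge it) (p acc t : ℕ)
    (h0 : it = [] → acc = t) :
    dotS (grp B it p acc (gT off it t)) (gV it) =
      ((acc : ℤ) - t) * eb it + ((sd B it p : ℤ) - off * (tot it : ℤ)) := by
  induction it generalizing p acc t with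
  | nil => rw [grp_nil]; simp [dotS, sd, tot, h0 rfl]
  | cons i it ih =>
    obtain ⟨_, h3, h4⟩ := h
    obtain ⟨e1, e2⟩ := he
    have e3 : tot (i :: it) = i.v + tot it := rfl
    rw [gT, sd, Itm.v_eq, e3, Itm.v_eq]
    rw [eb] at h3 ⊢
    have hs : ∀ y : ℕ, (((y <<< i.a : ℕ)) : ℤ) = (y : ℤ) * 2 ^ i.a := by
      intro y; rw [Nat.shiftLeft_eq]; push_cast; ring
    rcases ho : i.e with _ | _
    · simp only [ho] at h3 ⊢
      have hne : it ≠ [] := by
        rcases e1 with e1 | e1
        · rw [ho] at e1; exact absurd e1 (by decide)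
        · exact e1
      have hV : gV (i :: it) = gV it := by
        unfold gV; rw [gF, ho]
      rw [hV, grp_f ho]
      rw [ih h4 e2 _ _ _ (fun hh => absurd hh hne)]
      show ((((acc + (p % B) <<< i.a : ℕ)) : ℤ) - ((t + off <<< i.a : ℕ) : ℤ)) * (eb it : ℤ)
        + (((sd B it (p / B) : ℕ) : ℤ) - off * (tot it : ℤ)) = _
      rw [h3]
      generalize p % B = d
      generalize p / B = p'
      push_cast [hs]
      ring
    · simp only [ho] at h3 ⊢
      have hV : gV (i :: it) = i.f.V :: gV it := by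
        unfold gV; rw [gF, ho]; rfl
      rw [hV, grp_t ho]
      simp only [dotS]
      rw [ih h4 e2 _ _ _ (fun _ => rfl), mkS_z]
      show ((((acc + (p % B) <<< i.a : ℕ)) : ℤ) - ((t + off <<< i.a : ℕ) : ℤ)) * (i.f.V : ℤ)
        + ((((0 : ℕ) : ℤ) - ((0 : ℕ) : ℤ)) * (eb it : ℤ)
          + (((sd B it (p / B) : ℕ) : ℤ) - off * (tot it : ℤ))) = _
      generalize p % B = d
      generalize p / B = p'
      push_cast [hs]
      ring

lemma sqF_zP {B off : ℕ} (it : List Itm) (h : Gd k r N nf it) (he : Ge it) (Ls : List ℕ)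
    (M : List (List Cell)) :
    (sqF B off it Ls (gT off it 0) (gF it) M).z =
      Q M (gV it) + ((sqs B off it Ls (tot it) : ℕ) : ℤ) := by
  induction it generalizing Ls M with
  | nil =>
    rw [sqF_nil, finM_z]
    show _ = Q M (gV []) + ((0 : ℕ) : ℤ)
    rw [Nat.cast_zero, add_zero]; rfl
  | cons i it ih =>
    cases Ls with
    | nil =>
      rw [sqF_cn, finM_z]
      show _ = Q M (gV (i :: it)) + ((0 : ℕ) : ℤ)
      rw [Nat.cast_zero, add_zero]; rfl
    | cons L Ls =>
      have hd := dot_grpP (B := B) (off := off) (i :: it) h he L 0 0 (fun _ => rfl)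
      have hq := Q_updM (grp B (i :: it) L 0 (gT off (i :: it) 0)) M (gV (i :: it))
      rw [hd] at hq
      have hs : ((sqs B off (i :: it) (L :: Ls) (tot (i :: it)) : ℕ) : ℤ) =
          ((sd B (i :: it) L : ℤ) - off * (tot (i :: it) : ℤ))
            * ((sd B (i :: it) L : ℤ) - off * (tot (i :: it) : ℤ))
          + ((sqs B off it Ls (tot it) : ℕ) : ℤ) := by
        rw [sqs, tot_sub, lin_eq (i :: it) h, zero_mul, zero_add]
        show ((sqd (sd B (i :: it) L) (off * tot (i :: it)) + sqs B off it Ls (tot it) : ℕ) : ℤ) = _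
        push_cast
        rw [sqd_eq]
        push_cast; ring
      rw [hs]
      rcases ho : i.e with _ | _
      · have hT : decT (Nat.shiftLeft off i.a) (gT off (i :: it) 0) = gT off it 0 := by
          rw [gT, ho]
          exact decT_gT off _ it 0
        have hF : gF (i :: it) = gF it := by rw [gF, ho]
        have hV : gV (i :: it) = gV it := by unfold gV; rw [hF]
        rw [hV] at hq
        rw [hV, sqF_f ho]
        rw [hT, hF, ih h.2.2 he.2, hq]
        push_cast; ring
      · have hT : tlT (gT off (i :: it) 0) = gT off it 0 := by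
          rw [gT, ho]; rfl
        have hF : gF (i :: it) = i.f :: gF it := by rw [gF, ho]
        have hV : gV (i :: it) = i.f.V :: gV it := by unfold gV; rw [hF]; rfl
        rw [hF]
        rcases hM : updM (grp B (i :: it) L 0 (gT off (i :: it) 0)) M with _ | ⟨r, M'⟩
        · exfalso
          have : grp B (i :: it) L 0 (gT off (i :: it) 0) ≠ [] := by
            rw [gT, ho]
            simp only
            rw [grp_t ho]; simp
          revert hM
          rcases hg : grp B (i :: it) L 0 (gT off (i :: it) 0) with _ | ⟨x, xs⟩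
          · exact absurd hg this
          · cases M with
            | nil => rw [updM_cn]; simp
            | cons r M => rw [updM_cc]; simp
        · rw [sqF_t ho _ _ _ _ _ _ _ hM, hT]
          rw [hM, hV] at hq
          simp only [Q] at hq
          rw [finRow_z, ih h.2.2 he.2, hV]
          have hV' : (gF it).map Fac.V = gV it := rfl
          rw [hV']
          push_cast at hq ⊢
          linarith

lemma exF_zP {B off : ℕ} (it : List Itm) (h : Gd k r N nf it) (he : Ge it) (Es : List ℕ)
    (C : List Cell) :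
    (exF B off it Es (gT off it 0) (gF it) C).z =
      eb it * dotC C (gV it) +
        (((eps B it Es : ℕ) : ℤ) - ((ens off it Es (tot it) : ℕ) : ℤ)) := by
  induction it generalizing Es C with
  | nil =>
    have : gV [] = [] := rfl
    rw [this, dotC_nil]
    show ((0 : ℕ) : ℤ) - ((0 : ℕ) : ℤ) = _
    simp [eps, ens]
  | cons i it ih =>
    cases Es with
    | nil =>
      rw [exF_cn, flE_z]
      show _ = _ + (((0 : ℕ) : ℤ) - ((0 : ℕ) : ℤ))
      ring
    | cons E Es =>
      have hd := dot_grpP (B := B) (off := off) (i :: it) h he E 0 0 (fun _ => rfl)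
      have hq := dotC_updE i.a (grp B (i :: it) E 0 (gT off (i :: it) 0)) C (gV (i :: it))
      rw [hd] at hq
      have e1 : ((eps B (i :: it) (E :: Es) : ℕ) : ℤ)
            - ((ens off (i :: it) (E :: Es) (tot (i :: it)) : ℕ) : ℤ) =
          ((sd B (i :: it) E : ℤ) - off * (tot (i :: it) : ℤ)) * (i.v : ℤ)
          + (((eps B it Es : ℕ) : ℤ) - ((ens off it Es (tot it) : ℕ) : ℤ)) := by
        rw [eps, ens, tot_sub, lin_eq (i :: it) h, zero_mul, zero_add, Itm.ap_eq, Itm.ap_eq]
        show ((sd B (i :: it) E * i.v + eps B it Es : ℕ) : ℤ)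
          - (((off * tot (i :: it)) * i.v + ens off it Es (tot it) : ℕ) : ℤ) = _
        push_cast; ring
      have hv : (i.v : ℤ) = 2 ^ i.a * (eb (i :: it) : ℤ) := by
        rw [Itm.v_eq, h.2.1]; push_cast; ring
      rw [e1]
      rcases ho : i.e with _ | _
      · have hT : decT (Nat.shiftLeft off i.a) (gT off (i :: it) 0) = gT off it 0 := by
          rw [gT, ho]
          exact decT_gT off _ it 0
        have hF : gF (i :: it) = gF it := by rw [gF, ho]
        have hV : gV (i :: it) = gV it := by unfold gV; rw [hF]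
        have hE : eb (i :: it) = eb it := by rw [eb, ho]
        rw [hV] at hq
        rw [hE] at hv hq
        rw [hV, hE, exF_f ho]
        rw [hT, hF, ih h.2.2 he.2, hq, hv]
        push_cast; ring
      · have hT : tlT (gT off (i :: it) 0) = gT off it 0 := by
          rw [gT, ho]; rfl
        have hF : gF (i :: it) = i.f :: gF it := by rw [gF, ho]
        have hE : eb (i :: it) = i.f.V := by rw [eb, ho]
        rw [hF, exF_t ho, hT]
        have hV' : (i.f :: gF it).map Fac.V = gV (i :: it) := by unfold gV; rw [hF]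
        rw [finE_z, ih h.2.2 he.2, hV', hq, hv, hE]
        rw [show dotC ([] : List Cell) (gV it) = 0 from rfl]
        push_cast; ring

lemma z2F_eqP (it : List Itm) (h : Gd k r N nf it) (he : Ge it) (acc : ℕ)
    (h0 : it = [] → acc = 0) : z2F it acc = acc * (eb it * eb it) + z2 it := by
  induction it generalizing acc with
  | nil => simp [z2F, z2, h0 rfl]
  | cons i it ih =>
    obtain ⟨_, h3, h4⟩ := h
    obtain ⟨e1, e2⟩ := he
    rw [z2F, z2, Itm.v_eq]
    rw [eb] at h3 ⊢
    have hs : (1 : ℕ) <<< (2 * i.a) = 2 ^ i.a * 2 ^ i.a := by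
      rw [Nat.shiftLeft_eq, one_mul, two_mul, pow_add]
    rcases ho : i.e with _ | _
    · simp only [ho] at h3 ⊢
      have hne : it ≠ [] := by
        rcases e1 with e1 | e1
        · rw [ho] at e1; exact absurd e1 (by decide)
        · exact e1
      rw [ih h4 e2 _ (fun hh => absurd hh hne)]
      show (acc + 1 <<< (2 * i.a)) * (eb it * eb it) + z2 it =
        acc * (eb it * eb it) + (2 ^ i.a * i.f.V * (2 ^ i.a * i.f.V) + z2 it)
      rw [hs, h3]; ring
    · simp only [ho] at h3 ⊢
      rw [ih h4 e2 _ (fun _ => rfl), Fac.ap_eq, Fac.ap_eq]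
      show (acc + 1 <<< (2 * i.a)) * i.f.V * i.f.V + (0 * (eb it * eb it) + z2 it) =
        acc * (i.f.V * i.f.V) + (2 ^ i.a * i.f.V * (2 ^ i.a * i.f.V) + z2 it)
      rw [hs]; ring

end

lemma Ge_of_gdb {k : ℕ} {r : Rad} {N : Bd} {nf : ℕ} {it : List Itm}
    (h : gdb k r N nf it = true) : Ge it := by
  induction it with
  | nil => trivial
  | cons i it ih =>
    simp only [gdb, Bool.and_eq_true, Bool.or_eq_true] at h
    obtain ⟨⟨_, h2⟩, h3⟩ := h
    refine ⟨?_, ih h3⟩
    rcases h2 with h2 | h2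
    · exact Or.inl h2
    · right
      intro hh
      rw [hh] at h2
      exact absurd h2 Bool.false_ne_true

lemma Blk.vF_eqP {b : Blk} {k : ℕ} {r : Rad} (h : b.ok k r = true) :
    b.vF = Int.sub (Int.ofNat b.vp) (Int.ofNat b.vn) := by
  simp only [Blk.ok, Bool.and_eq_true] at h
  have h1 := h.1.1.1.1.1.1
  have hg := gdb_sound h1
  have he := Ge_of_gdb h1
  have a1 := sqF_zP (B := b.B) (off := b.off) b.its hg he b.L []
  have a2 := exF_zP (B := b.BE) (off := b.offE) b.its hg he b.E []
  have a3 : dz2F b.dl b.its = b.dl * z2 b.its := by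
    have := z2F_eqP b.its hg he 0 (fun _ => rfl)
    rcases hd : b.dl with _ | n
    · rw [Nat.zero_mul]; rfl
    · show (n + 1) * z2F b.its 0 = _
      rw [this, zero_mul, zero_add]
  rw [show Q ([] : List (List Cell)) (gV b.its) = 0 from rfl, zero_add] at a1
  rw [show dotC ([] : List Cell) (gV b.its) = 0 from rfl, mul_zero, zero_add] at a2
  unfold Blk.vF
  rw [toI_eq, toI_eq, a1, a2, a3]
  have e2 : b.vp = sqs b.B b.off b.its b.L (tot b.its)
      + (dz2 b.dl b.its + eps b.BE b.its b.E) := rfl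
  show ((sqs b.B b.off b.its b.L (tot b.its) : ℕ) : ℤ) + (((b.dl * z2 b.its : ℕ) : ℤ)
    + (((eps b.BE b.its b.E : ℕ) : ℤ) - ((ens b.offE b.its b.E (tot b.its) : ℕ) : ℤ))) =
    ((b.vp : ℕ) : ℤ) - ((b.vn : ℕ) : ℤ)
  rw [e2, Blk.vn, dz2_eq]; push_cast; ring

lemma bsumF_eqP {k : ℕ} {r : Rad} {N : Bd} (X : IPt) (bs : List Blk) (h : bok k r N bs = true) :
    bsumF X bs = bsum X bs := by
  induction bs with
  | nil => rfl
  | cons b bs ih =>
    simp only [bok, Bool.and_eq_true] at h
    rw [bsumF, bsum, ih h.2, Blk.vF_eqP h.1.1]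

noncomputable def Cert.checkP (c : Cert) : Bool :=
  c.r.okb c.N && c.target.ok && c.target.bd.leb c.N && Nat.blt 0 c.s && bok c.k c.r c.N c.blocks &&
    Nat.blt (Nat.add (Nat.mul c.s c.target.nm) (bnm c.blocks)) (Nat.pow 2 c.k) &&
    eqi (Int.mul (Int.ofNat c.s) (c.target.ev (ipt c.k c.r))) (bsumF (ipt c.k c.r) c.blocks)

theorem Cert.check_of_P {c : Cert} (h : c.checkP = true) : c.check = true := by
  have h' := h
  simp only [Cert.checkP, Bool.and_eq_true] at h
  obtain ⟨⟨⟨⟨⟨⟨h1, h2⟩, h3⟩, h4⟩, h5⟩, h6⟩, h7⟩ := h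
  rw [bsumF_eqP _ _ h5] at h7
  simp only [Cert.check, Bool.and_eq_true]
  exact ⟨⟨⟨⟨⟨⟨h1, h2⟩, h3⟩, h4⟩, h5⟩, h6⟩, h7⟩

end Pool.Sos71
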