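import Pool.Agent.Helper71.Sos.Fast

/-!
Polynomials with packed coefficients, for certificates in several parts.
-/

set_option autoImplicit false

namespace Pool.Sos71

/-- a leaf: a monomial in `l, S, C, P, R` and `n` packed coefficients of the powers of `u, v` -/
structure Lf where
  m : Mon
  n : ℕ
  p : ℕ

/-- a group of leaves with a common monomial -/
structure Gp where
  m : Mon
  l : List Lf

/-- packed polynomial: base `2^k`, radix `rg` of `u`, the coefficient is digit - `off` -/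
structure Pk where
  k : ℕ
  rg : ℕ
  off : ℕ
  l : List Gp

/-- the monomial `m v^f u^g` -/
def mfg (m : Mon) (f g : ℕ) : Mon := ⟨m.a, m.b, m.c, m.d, m.e, f, g⟩

def nxf (rg f : ℕ) : ℕ := bif Nat.beq (Nat.succ f) rg then 0 else Nat.succ f
def nxg (rg f g : ℕ) : ℕ := bif Nat.beq (Nat.succ f) rg then Nat.succ g else g

/-- real value of a leaf -/
noncomputable def lfr (W off rg : ℕ) (x : Pnt) (m : Mon) : ℕ → ℕ → ℕ → ℕ → ℝ
  | 0, _, _, _ => 0
  | n + 1, f, g, p => (((p % W : ℕ) : ℝ) - off) * (mfg m f g).val x +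
      lfr W off rg x m n (nxf rg f) (nxg rg f g) (p / W)

noncomputable def lsr (W off rg : ℕ) (x : Pnt) (m : Mon) : List Lf → ℝ
  | [] => 0
  | t :: l => lfr W off rg x (m.add t.m) t.n 0 0 t.p + lsr W off rg x m l

noncomputable def gsr (W off rg : ℕ) (x : Pnt) : List Gp → ℝ
  | [] => 0
  | t :: l => lsr W off rg x t.m t.l + gsr W off rg x l

noncomputable def Pk.re (P : Pk) (x : Pnt) : ℝ := gsr (2 ^ P.k) P.off P.rg x P.l

/-- all digits are at most `2 off` -/
noncomputable def dgOk (W o2 : ℕ) (n : ℕ) : ℕ → Bool :=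
  Nat.rec (fun p => Nat.beq p 0)
    (fun _ ih p => Bool.rec false (ih (Nat.div p W)) (Nat.ble (Nat.mod p W) o2)) n

lemma dgOk_succ {W o2 n p : ℕ} (h : dgOk W o2 (n + 1) p = true) :
    p % W ≤ o2 ∧ dgOk W o2 n (p / W) = true := by
  have h1 : dgOk W o2 (n + 1) p =
    Bool.rec false (dgOk W o2 n (Nat.div p W)) (Nat.ble (Nat.mod p W) o2) := rfl
  rw [h1] at h
  rcases hb : Nat.ble (Nat.mod p W) o2 with _ | _
  · rw [hb] at h; exact absurd h Bool.false_ne_true
  · rw [hb] at h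
    exact ⟨Nat.le_of_ble_eq_true hb, h⟩

/-- `1 + W + ... + W^(n-1)` -/
def ons (W : ℕ) : ℕ → ℕ
  | 0 => 0
  | n + 1 => Nat.add 1 (Nat.mul W (ons W n))

section
variable {k : ℕ} {r : Rad} {N : Bd}

lemma code_mfg (m : Mon) (f g : ℕ) (hf : m.f = 0) (hg : m.g = 0) :
    (mfg m f g).code r = m.code r + (f + r.rg * g) := by
  simp only [Mon.code, mfg, hf, hg]; ring

lemma nx_code (f g : ℕ) : nxf r.rg f + r.rg * nxg r.rg f g = f + r.rg * g + 1 := by
  unfold nxf nxg
  by_cases h : Nat.succ f = r.rg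
  · have hb : Nat.beq (Nat.succ f) r.rg = true := by rw [h]; exact Nat.beq_refl _
    rw [hb]
    show 0 + r.rg * (g + 1) = _
    rw [← h]
    show 0 + (f + 1) * (g + 1) = f + (f + 1) * g + 1
    ring
  · have : Nat.beq (Nat.succ f) r.rg = false := by
      rcases hb : Nat.beq (Nat.succ f) r.rg with _ | _
      · rfl
      · exact absurd (Nat.eq_of_beq_eq_true hb) h
    rw [this]
    show f + 1 + r.rg * g = _
    ring

lemma nxf_lt {rg f : ℕ} (h0 : 0 < rg) (h : f < rg) : nxf rg f < rg := by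
  unfold nxf
  by_cases h1 : Nat.succ f = rg
  · have hb : Nat.beq (Nat.succ f) rg = true := by rw [h1]; exact Nat.beq_refl _
    rw [hb]; exact h0
  · have : Nat.beq (Nat.succ f) rg = false := by
      rcases hb : Nat.beq (Nat.succ f) rg with _ | _
      · rfl
      · exact absurd (Nat.eq_of_beq_eq_true hb) h1
    rw [this]
    show f + 1 < rg
    have : Nat.succ f = f + 1 := rfl
    omega

lemma rep_lf {off o2 : ℕ} (ho : o2 = 2 * off) {x : Pnt} {m : Mon} (hm : ∀ f g : ℕ, f ≤ N.f → g ≤ N.g →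
      (mfg m f g).InW N) (hf0 : m.f = 0) (hg0 : m.g = 0) (hr : r.rg = N.f + 1)
    (n : ℕ) (f g : ℕ) (hf : f < r.rg) (hn : f + r.rg * g + n ≤ r.rg * (N.g + 1))
    (p : ℕ) (hp : dgOk (2 ^ k) o2 n p = true) :
    RepW ((2 ^ k : ℕ) : ℤ) r x N (n * off)
      (((2 ^ k : ℕ) : ℤ) ^ (m.code r + (f + r.rg * g)) * ((p : ℤ) - off * (ons (2 ^ k) n : ℤ)))
      (lfr (2 ^ k) off r.rg x m n f g p) := by
  induction n generalizing f g p with
  | zero =>
    have hp' : p = 0 := Nat.eq_of_beq_eq_true hp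
    have h1 := RepW.zero (w := ((2 ^ k : ℕ) : ℤ)) (r := r) (x := x) N 0
    rw [hp']
    simpa [lfr, ons] using h1
  | succ n ih =>
    obtain ⟨h1, h2⟩ := dgOk_succ hp
    have hg : g ≤ N.g := by
      by_contra hh
      have : N.g + 1 ≤ g := by omega
      have h3 := Nat.mul_le_mul_left r.rg this
      omega
    have hfN : f ≤ N.f := by omega
    have r1 := RepW.mon (w := ((2 ^ k : ℕ) : ℤ)) (r := r) (x := x)
      (((p % 2 ^ k : ℕ) : ℤ) - off) (hm f g hfN hg)
    have h3 : (((p % 2 ^ k : ℕ) : ℤ) - off).natAbs ≤ off := by omega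
    have hc := nx_code (r := r) f g
    have r2 := ih (nxf r.rg f) (nxg r.rg f g) (nxf_lt (by omega) hf) (by omega) _ h2
    have r3 := (r1.mono h3).add r2
    rw [code_mfg m f g hf0 hg0, hc] at r3
    have e1 : (((p % 2 ^ k : ℕ) : ℤ) - off) * ((2 ^ k : ℕ) : ℤ) ^ (m.code r + (f + r.rg * g)) +
        ((2 ^ k : ℕ) : ℤ) ^ (m.code r + (f + r.rg * g + 1)) *
          (((p / 2 ^ k : ℕ) : ℤ) - off * (ons (2 ^ k) n : ℤ)) =
        ((2 ^ k : ℕ) : ℤ) ^ (m.code r + (f + r.rg * g)) *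
          ((p : ℤ) - off * (ons (2 ^ k) (n + 1) : ℤ)) := by
      have e2 : (p : ℤ) = ((p % 2 ^ k : ℕ) : ℤ) + ((2 ^ k : ℕ) : ℤ) * ((p / 2 ^ k : ℕ) : ℤ) := by
        exact_mod_cast (Nat.mod_add_div p (2 ^ k)).symm
      have e3 : (ons (2 ^ k) (n + 1) : ℤ) = 1 + ((2 ^ k : ℕ) : ℤ) * (ons (2 ^ k) n : ℤ) := by
        show ((1 + 2 ^ k * ons (2 ^ k) n : ℕ) : ℤ) = _
        push_cast; ring
      rw [e3, show m.code r + (f + r.rg * g + 1) = (m.code r + (f + r.rg * g)) + 1 from rfl,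
        pow_succ]
      generalize m.code r + (f + r.rg * g) = c0
      generalize hq : p % 2 ^ k = q at *
      generalize hq' : p / 2 ^ k = q' at *
      rw [e2]
      ring
    have e4 : ((((p % 2 ^ k : ℕ) : ℤ) - off : ℤ) : ℝ) * (mfg m f g).val x +
        lfr (2 ^ k) off r.rg x m n (nxf r.rg f) (nxg r.rg f g) (p / 2 ^ k) =
        lfr (2 ^ k) off r.rg x m (n + 1) f g p := by
      rw [lfr]
      generalize p % 2 ^ k = q
      push_cast; ring
    rw [e1, e4] at r3
    refine r3.mono (le_of_eq ?_)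
    ring

/-- the monomial is admissible -/
noncomputable def mOkb (N : Bd) (m : Mon) : Bool :=
  Nat.beq m.f 0 && Nat.beq m.g 0 && m.inbW N

noncomputable def lsOk (k o2 n : ℕ) (N : Bd) (m : Mon) : List Lf → Bool
  | [] => true
  | t :: l => mOkb N (m.add t.m) && Nat.ble t.n n && dgOk (2 ^ k) o2 t.n t.p && lsOk k o2 n N m l

noncomputable def gsOk (k o2 n : ℕ) (N : Bd) : List Gp → Bool
  | [] => true
  | t :: l => lsOk k o2 n N t.m t.l && gsOk k o2 n N l

/-- number of digits -/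
def lsl : List Lf → ℕ
  | [] => 0
  | t :: l => Nat.add t.n (lsl l)

def gsl : List Gp → ℕ
  | [] => 0
  | t :: l => Nat.add (lsl t.l) (gsl l)

/-- sums of the shifted packed numbers, and of the shifted constants -/
noncomputable def lsv (k : ℕ) (r : Rad) (l : List Lf) : ℕ :=
  List.rec 0 (fun t _ ih => Nat.add (Nat.shiftLeft t.p (Nat.mul k (t.m.code r))) ih) l

noncomputable def lso (k : ℕ) (r : Rad) (off : ℕ) (l : List Lf) : ℕ :=
  List.rec 0 (fun t _ ih => Nat.add (Nat.shiftLeft (Nat.mul off (ons (2 ^ k) t.n))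
    (Nat.mul k (t.m.code r))) ih) l

noncomputable def gsv (k : ℕ) (r : Rad) (l : List Gp) : ℕ :=
  List.rec 0 (fun t _ ih => Nat.add (Nat.shiftLeft (lsv k r t.l) (Nat.mul k (t.m.code r))) ih) l

noncomputable def gso (k : ℕ) (r : Rad) (off : ℕ) (l : List Gp) : ℕ :=
  List.rec 0 (fun t _ ih => Nat.add (Nat.shiftLeft (lso k r off t.l) (Nat.mul k (t.m.code r)))
    ih) l

lemma rep_ls {off o2 n : ℕ} (ho : o2 = 2 * off) {x : Pnt} (hr : r.rg = N.f + 1)
    (hn : n ≤ r.rg * (N.g + 1)) (m : Mon) (l : List Lf) (h : lsOk k o2 n N m l = true) :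
    RepW ((2 ^ k : ℕ) : ℤ) r x N (lsl l * off)
      (((2 ^ k : ℕ) : ℤ) ^ (m.code r) * ((lsv k r l : ℤ) - (lso k r off l : ℤ)))
      (lsr (2 ^ k) off r.rg x m l) := by
  induction l with
  | nil =>
    have h1 := RepW.zero (w := ((2 ^ k : ℕ) : ℤ)) (r := r) (x := x) N 0
    have e0 : lsl ([] : List Lf) * off = 0 := by
      show 0 * off = 0
      rw [Nat.zero_mul]
    have e1 : ((2 ^ k : ℕ) : ℤ) ^ (m.code r) *
        ((lsv k r ([] : List Lf) : ℤ) - (lso k r off ([] : List Lf) : ℤ)) = 0 := by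
      show ((2 ^ k : ℕ) : ℤ) ^ (m.code r) * (((0 : ℕ) : ℤ) - ((0 : ℕ) : ℤ)) = 0
      simp
    rw [e0, e1]
    exact h1
  | cons t l ih =>
    simp only [lsOk, Bool.and_eq_true, mOkb] at h
    obtain ⟨⟨⟨⟨⟨h1, h2⟩, h3⟩, h6⟩, h4⟩, h5⟩ := h
    have h1 := Nat.eq_of_beq_eq_true h1
    have h2 := Nat.eq_of_beq_eq_true h2
    have h3 := Mon.inbW_sound h3
    have h6 := Nat.le_of_ble_eq_true h6
    have hm : ∀ f g : ℕ, f ≤ N.f → g ≤ N.g → (mfg (m.add t.m) f g).InW N := by
      intro f g hf hg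
      obtain ⟨a1, a2, a3, a4, a5, a6, a7⟩ := h3
      exact ⟨a1, a2, a3, a4, hf, hg, a7⟩
    have r1 := rep_lf (k := k) (r := r) (N := N) ho (x := x) hm h1 h2 hr t.n 0 0 (by omega)
      (by simpa using h6.trans hn) t.p h4
    have r2 := r1.add (ih h5)
    have e1 : ((2 ^ k : ℕ) : ℤ) ^ ((m.add t.m).code r + (0 + r.rg * 0)) *
          ((t.p : ℤ) - off * (ons (2 ^ k) t.n : ℤ)) +
        ((2 ^ k : ℕ) : ℤ) ^ (m.code r) * ((lsv k r l : ℤ) - (lso k r off l : ℤ)) =
        ((2 ^ k : ℕ) : ℤ) ^ (m.code r) * ((lsv k r (t :: l) : ℤ) - (lso k r off (t :: l) : ℤ)) := by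
      have e2 : lsv k r (t :: l) = (t.p <<< (k * t.m.code r)) + lsv k r l := rfl
      have e3 : lso k r off (t :: l) =
        ((off * ons (2 ^ k) t.n) <<< (k * t.m.code r)) + lso k r off l := rfl
      rw [e2, e3, Nat.shiftLeft_eq, Nat.shiftLeft_eq, Mon.code_add, pow_mul, mul_zero, add_zero,
        add_zero, pow_add]
      generalize lso k r off l = o'
      generalize lsv k r l = v'
      push_cast
      ring
    have e4 : lfr (2 ^ k) off r.rg x (m.add t.m) t.n 0 0 t.p + lsr (2 ^ k) off r.rg x m l =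
        lsr (2 ^ k) off r.rg x m (t :: l) := rfl
    rw [e1, e4] at r2
    refine r2.mono (le_of_eq ?_)
    show _ = (t.n + lsl l) * off
    ring

lemma rep_gs {off o2 n : ℕ} (ho : o2 = 2 * off) {x : Pnt} (hr : r.rg = N.f + 1)
    (hn : n ≤ r.rg * (N.g + 1)) (l : List Gp) (h : gsOk k o2 n N l = true) :
    RepW ((2 ^ k : ℕ) : ℤ) r x N (gsl l * off)
      ((gsv k r l : ℤ) - (gso k r off l : ℤ)) (gsr (2 ^ k) off r.rg x l) := by
  induction l with
  | nil =>
    have h1 := RepW.zero (w := ((2 ^ k : ℕ) : ℤ)) (r := r) (x := x) N 0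
    have e0 : gsl ([] : List Gp) * off = 0 := by
      show 0 * off = 0
      rw [Nat.zero_mul]
    rw [e0]
    exact h1
  | cons t l ih =>
    simp only [gsOk, Bool.and_eq_true] at h
    obtain ⟨h1, h2⟩ := h
    have r2 := (rep_ls (k := k) (r := r) (N := N) ho (x := x) hr hn t.m t.l h1).add (ih h2)
    have e1 : ((2 ^ k : ℕ) : ℤ) ^ (t.m.code r) * ((lsv k r t.l : ℤ) - (lso k r off t.l : ℤ)) +
        ((gsv k r l : ℤ) - (gso k r off l : ℤ)) =
        (gsv k r (t :: l) : ℤ) - (gso k r off (t :: l) : ℤ) := by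
      have e2 : gsv k r (t :: l) = (lsv k r t.l <<< (k * t.m.code r)) + gsv k r l := rfl
      have e3 : gso k r off (t :: l) = (lso k r off t.l <<< (k * t.m.code r)) + gso k r off l := rfl
      rw [e2, e3, Nat.shiftLeft_eq, Nat.shiftLeft_eq, pow_mul]
      generalize lso k r off t.l = o'
      generalize lsv k r t.l = v'
      generalize gso k r off l = o''
      generalize gsv k r l = v''
      push_cast
      ring
    have e4 : lsr (2 ^ k) off r.rg x t.m t.l + gsr (2 ^ k) off r.rg x l =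
        gsr (2 ^ k) off r.rg x (t :: l) := rfl
    rw [e1, e4] at r2
    refine r2.mono (le_of_eq ?_)
    show _ = (lsl t.l + gsl l) * off
    ring

end

noncomputable def Pk.ok (P : Pk) (k : ℕ) (r : Rad) (N : Bd) : Bool :=
  Nat.beq P.k k && Nat.beq P.rg r.rg && Nat.beq r.rg (N.f + 1) &&
    gsOk P.k (Nat.mul 2 P.off) (r.rg * (N.g + 1)) N P.l

noncomputable def Pk.v (P : Pk) (r : Rad) : ℤ :=
  Int.sub (Int.ofNat (gsv P.k r P.l)) (Int.ofNat (gso P.k r P.off P.l))

noncomputable def Pk.nm (P : Pk) : ℕ := Nat.mul (gsl P.l) P.off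

lemma Pk.rep {P : Pk} {k : ℕ} {r : Rad} {N : Bd} (h : P.ok k r N = true) (x : Pnt) :
    RepW ((2 ^ k : ℕ) : ℤ) r x N P.nm (P.v r) (P.re x) := by
  simp only [Pk.ok, Bool.and_eq_true] at h
  obtain ⟨⟨⟨h1, h2⟩, h3⟩, h5⟩ := h
  have h1 := Nat.eq_of_beq_eq_true h1
  have h2 := Nat.eq_of_beq_eq_true h2
  have h3 := Nat.eq_of_beq_eq_true h3
  subst h1
  have := rep_gs (k := P.k) (r := r) (N := N) (o2 := Nat.mul 2 P.off) (off := P.off) rfl (x := x)
    h3 le_rfl P.l h5
  unfold Pk.re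
  rw [h2]
  exact this

/-! ### certificates with packed polynomials -/

/-- `sum of s t + sum of plus - sum of minus = sum of squares` -/
structure CertK where
  k : ℕ
  r : Rad
  N : Bd
  tg : List (ℕ × Ex)
  plus : List Pk
  minus : List Pk
  blocks : List Blk

noncomputable def tev (X : IPt) : List (ℕ × Ex) → ℤ
  | [] => 0
  | t :: l => Int.add (Int.mul (Int.ofNat t.1) (t.2.ev X)) (tev X l)

noncomputable def tnm : List (ℕ × Ex) → ℕ
  | [] => 0
  | t :: l => Nat.add (Nat.mul t.1 t.2.nm) (tnm l)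

noncomputable def tok (N : Bd) : List (ℕ × Ex) → Bool
  | [] => true
  | t :: l => t.2.okW && t.2.bdW.leb N && tok N l

noncomputable def tre (x : Pnt) : List (ℕ × Ex) → ℝ
  | [] => 0
  | t :: l => (t.1 : ℝ) * t.2.re x + tre x l

noncomputable def pev (r : Rad) : List Pk → ℤ
  | [] => 0
  | P :: l => Int.add (P.v r) (pev r l)

noncomputable def pnm : List Pk → ℕ
  | [] => 0
  | P :: l => Nat.add P.nm (pnm l)

noncomputable def pok (k : ℕ) (r : Rad) (N : Bd) : List Pk → Bool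
  | [] => true
  | P :: l => P.ok k r N && pok k r N l

noncomputable def pre (x : Pnt) : List Pk → ℝ
  | [] => 0
  | P :: l => P.re x + pre x l

noncomputable def CertK.check (c : CertK) : Bool :=
  c.r.okb c.N && tok c.N c.tg && pok c.k c.r c.N c.plus && pok c.k c.r c.N c.minus &&
    bokW c.k c.r c.N c.blocks &&
    Nat.blt (Nat.add (Nat.add (tnm c.tg) (Nat.add (pnm c.plus) (pnm c.minus))) (bnm c.blocks))
      (Nat.pow 2 c.k) &&
    eqi (Int.add (tev (ipt c.k c.r) c.tg) (pev c.r c.plus))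
      (Int.add (bsumF (ipt c.k c.r) c.blocks) (pev c.r c.minus))

lemma tev_rep {k : ℕ} {r : Rad} {N : Bd} (l : List (ℕ × Ex)) (h : tok N l = true) (x : Pnt) :
    RepW ((2 ^ k : ℕ) : ℤ) r x N (tnm l) (tev (ipt k r) l) (tre x l) := by
  induction l with
  | nil => exact RepW.zero _ _
  | cons t l ih =>
    simp only [tok, Bool.and_eq_true] at h
    obtain ⟨⟨h1, h2⟩, h3⟩ := h
    have r1 := ((Ex.repW (w := ((2 ^ k : ℕ) : ℤ)) (r := r) (x := x) t.2 h1).le
      (Bd.leb_sound h2)).smul (t.1 : ℤ)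
    rw [← ipt_eq] at r1
    have r2 := r1.add (ih h3)
    have e1 : ((t.1 : ℤ) : ℝ) = (t.1 : ℝ) := by push_cast; rfl
    rw [e1] at r2
    exact r2

lemma pev_rep {k : ℕ} {r : Rad} {N : Bd} (l : List Pk) (h : pok k r N l = true) (x : Pnt) :
    RepW ((2 ^ k : ℕ) : ℤ) r x N (pnm l) (pev r l) (pre x l) := by
  induction l with
  | nil => exact RepW.zero _ _
  | cons P l ih =>
    simp only [pok, Bool.and_eq_true] at h
    exact (Pk.rep h.1 x).add (ih h.2)

theorem CertK.sound {c : CertK} (h : c.check = true) (x : Pnt) :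
    tre x c.tg + pre x c.plus = brs x c.blocks + pre x c.minus := by
  simp only [CertK.check, Bool.and_eq_true, Nat.blt_eq] at h
  obtain ⟨⟨⟨⟨⟨⟨h1, h2⟩, h3⟩, h4⟩, h5⟩, h6⟩, h7⟩ := h
  rw [bsumF_eq _ _ h5] at h7
  have r1 := (tev_rep (k := c.k) (r := c.r) c.tg h2 x).add (pev_rep c.plus h3 x)
  have r2 := (bsum_repW c.blocks h5 x).smul (-1)
  have r3 := (pev_rep c.minus h4 x).smul (-1)
  have r4 := (r1.add r2).add r3
  have e7 := eqi_sound h7
  have e8 : tev (ipt c.k c.r) c.tg + pev c.r c.plus + -1 * bsum (ipt c.k c.r) c.blocks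
      + -1 * pev c.r c.minus = 0 := by
    have : tev (ipt c.k c.r) c.tg + pev c.r c.plus =
      bsum (ipt c.k c.r) c.blocks + pev c.r c.minus := e7
    rw [this]; ring
  rw [e8] at r4
  have r5 := r4.eq_zero (Rad.okb_sound h1) (by
    have h6' : tnm c.tg + (pnm c.plus + pnm c.minus) + bnm c.blocks < 2 ^ c.k := h6
    have e9 : tnm c.tg + pnm c.plus + (-1 : ℤ).natAbs * bnm c.blocks +
      (-1 : ℤ).natAbs * pnm c.minus = tnm c.tg + (pnm c.plus + pnm c.minus) + bnm c.blocks := by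
      simp; ring
    rw [e9]; exact h6')
  push_cast at r5
  linarith

end Pool.Sos71
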