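import Mathlib

/-!
Polynomials in seven variables `l, S, C, P, R, u, v`, homogeneous for the weight
`S, C : 1`, `P, R : 2`, represented by their value at one point with large integer
coordinates (Kronecker substitution).
-/

set_option autoImplicit false

namespace Pool.Sos71

/-- exponents of a monomial -/
structure Mon where
  a : ℕ
  b : ℕ
  c : ℕ
  d : ℕ
  e : ℕ
  f : ℕ
  g : ℕ

/-- a point -/
structure Pnt where
  a : ℝ
  b : ℝ
  c : ℝ
  d : ℝ
  e : ℝ
  f : ℝ
  g : ℝ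

def Mon.add (m n : Mon) : Mon :=
  ⟨m.a + n.a, m.b + n.b, m.c + n.c, m.d + n.d, m.e + n.e, m.f + n.f, m.g + n.g⟩

noncomputable def Mon.val (x : Pnt) (m : Mon) : ℝ :=
  x.a ^ m.a * x.b ^ m.b * x.c ^ m.c * x.d ^ m.d * x.e ^ m.e * x.f ^ m.f * x.g ^ m.g

lemma Mon.val_add (x : Pnt) (m n : Mon) : (m.add n).val x = m.val x * n.val x := by
  simp only [Mon.val, Mon.add, pow_add]; ring

/-- bounds of the exponents, and the weight -/
structure Bd where
  a : ℕ
  b : ℕ
  d : ℕ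
  e : ℕ
  f : ℕ
  g : ℕ
  w : ℕ

def Mon.In (m : Mon) (B : Bd) : Prop :=
  m.a ≤ B.a ∧ m.b ≤ B.b ∧ m.d ≤ B.d ∧ m.e ≤ B.e ∧ m.f ≤ B.f ∧ m.g ≤ B.g ∧
    m.b + m.c + 2 * m.d + 2 * m.e = B.w

def Bd.add (B D : Bd) : Bd :=
  ⟨B.a + D.a, B.b + D.b, B.d + D.d, B.e + D.e, B.f + D.f, B.g + D.g, B.w + D.w⟩

/-- `B` is contained in `D` -/
def Bd.le (B D : Bd) : Prop :=
  B.a ≤ D.a ∧ B.b ≤ D.b ∧ B.d ≤ D.d ∧ B.e ≤ D.e ∧ B.f ≤ D.f ∧ B.g ≤ D.g ∧ B.w = D.w

def Bd.leb (B D : Bd) : Bool :=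
  Nat.ble B.a D.a && Nat.ble B.b D.b && Nat.ble B.d D.d && Nat.ble B.e D.e &&
    Nat.ble B.f D.f && Nat.ble B.g D.g && Nat.beq B.w D.w

lemma Bd.leb_sound {B D : Bd} (h : B.leb D = true) : B.le D := by
  simp only [Bd.leb, Bool.and_eq_true, Nat.ble_eq] at h
  obtain ⟨⟨⟨⟨⟨⟨h1, h2⟩, h3⟩, h4⟩, h5⟩, h6⟩, h7⟩ := h
  exact ⟨h1, h2, h3, h4, h5, h6, Nat.eq_of_beq_eq_true h7⟩

lemma Mon.In.add {m n : Mon} {B D : Bd} (h : m.In B) (h' : n.In D) : (m.add n).In (B.add D) := by
  obtain ⟨h1, h2, h3, h4, h5, h6, h7⟩ := h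
  obtain ⟨g1, g2, g3, g4, g5, g6, g7⟩ := h'
  refine ⟨Nat.add_le_add h1 g1, Nat.add_le_add h2 g2, Nat.add_le_add h3 g3,
    Nat.add_le_add h4 g4, Nat.add_le_add h5 g5, Nat.add_le_add h6 g6, ?_⟩
  simp only [Mon.add, Bd.add]; omega

lemma Mon.In.le {m : Mon} {B D : Bd} (h : m.In B) (h' : B.le D) : m.In D := by
  obtain ⟨h1, h2, h3, h4, h5, h6, h7⟩ := h
  obtain ⟨g1, g2, g3, g4, g5, g6, g7⟩ := h'
  exact ⟨h1.trans g1, h2.trans g2, h3.trans g3, h4.trans g4, h5.trans g5, h6.trans g6,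
    h7.trans g7⟩

/-- the radices: `code = f + rg g + ra a + rb b + rd d + re e` -/
structure Rad where
  rg : ℕ
  ra : ℕ
  rb : ℕ
  rd : ℕ
  re : ℕ

def Mon.code (r : Rad) (m : Mon) : ℕ :=
  m.f + r.rg * m.g + r.ra * m.a + r.rb * m.b + r.rd * m.d + r.re * m.e

lemma Mon.code_add (r : Rad) (m n : Mon) : (m.add n).code r = m.code r + n.code r := by
  simp only [Mon.code, Mon.add]; ring

/-- the radices are large enough for the box `B` -/
def Rad.ok (r : Rad) (B : Bd) : Prop :=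
  B.f < r.rg ∧ B.f + r.rg * B.g < r.ra ∧ B.f + r.rg * B.g + r.ra * B.a < r.rb ∧
    B.f + r.rg * B.g + r.ra * B.a + r.rb * B.b < r.rd ∧
    B.f + r.rg * B.g + r.ra * B.a + r.rb * B.b + r.rd * B.d < r.re

def Rad.okb (r : Rad) (B : Bd) : Bool :=
  Nat.blt B.f r.rg && Nat.blt (B.f + r.rg * B.g) r.ra &&
    Nat.blt (B.f + r.rg * B.g + r.ra * B.a) r.rb &&
    Nat.blt (B.f + r.rg * B.g + r.ra * B.a + r.rb * B.b) r.rd &&
    Nat.blt (B.f + r.rg * B.g + r.ra * B.a + r.rb * B.b + r.rd * B.d) r.re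

lemma Rad.okb_sound {r : Rad} {B : Bd} (h : r.okb B = true) : r.ok B := by
  simp only [Rad.okb, Bool.and_eq_true, Nat.blt_eq] at h
  obtain ⟨⟨⟨⟨h1, h2⟩, h3⟩, h4⟩, h5⟩ := h
  exact ⟨h1, h2, h3, h4, h5⟩

/-- uniqueness of the leading digit -/
lemma dig_unique {r x y n m : ℕ} (hx : x < r) (hy : y < r) (h : x + r * n = y + r * m) :
    n = m ∧ x = y := by
  have h1 : (x + r * n) / r = (y + r * m) / r := by rw [h]
  have hr : 0 < r := by omega
  rw [Nat.add_mul_div_left _ _ hr, Nat.add_mul_div_left _ _ hr, Nat.div_eq_of_lt hx,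
    Nat.div_eq_of_lt hy] at h1
  have h2 : n = m := by omega
  subst h2
  exact ⟨rfl, by omega⟩

lemma code_inj {r : Rad} {B : Bd} (hr : r.ok B) {m n : Mon} (hm : m.In B) (hn : n.In B)
    (h : m.code r = n.code r) : m = n := by
  obtain ⟨r1, r2, r3, r4, r5⟩ := hr
  obtain ⟨a1, a2, a3, a4, a5, a6, a7⟩ := hm
  obtain ⟨b1, b2, b3, b4, b5, b6, b7⟩ := hn
  simp only [Mon.code] at h
  have g1 : r.rg * m.g ≤ r.rg * B.g := Nat.mul_le_mul_left _ a6
  have g2 : r.rg * n.g ≤ r.rg * B.g := Nat.mul_le_mul_left _ b6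
  have g3 : r.ra * m.a ≤ r.ra * B.a := Nat.mul_le_mul_left _ a1
  have g4 : r.ra * n.a ≤ r.ra * B.a := Nat.mul_le_mul_left _ b1
  have g5 : r.rb * m.b ≤ r.rb * B.b := Nat.mul_le_mul_left _ a2
  have g6 : r.rb * n.b ≤ r.rb * B.b := Nat.mul_le_mul_left _ b2
  have g7 : r.rd * m.d ≤ r.rd * B.d := Nat.mul_le_mul_left _ a3
  have g8 : r.rd * n.d ≤ r.rd * B.d := Nat.mul_le_mul_left _ b3
  obtain ⟨e5, h5⟩ := dig_unique (r := r.re) (by omega) (by omega) h
  obtain ⟨e4, h4⟩ := dig_unique (r := r.rd) (by omega) (by omega) h5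
  obtain ⟨e3, h3⟩ := dig_unique (r := r.rb) (by omega) (by omega) h4
  obtain ⟨e2, h2⟩ := dig_unique (r := r.ra) (by omega) (by omega) h3
  obtain ⟨e1, h1⟩ := dig_unique (r := r.rg) (by omega) (by omega) h2
  have e6 : m.c = n.c := by omega
  cases m; cases n
  simp_all

/-! ### lists of terms -/

abbrev Pol := List (ℤ × Mon)

def Pol.ev (w : ℤ) (r : Rad) (P : Pol) : ℤ := (P.map fun t => t.1 * w ^ t.2.code r).sum
noncomputable def Pol.re (x : Pnt) (P : Pol) : ℝ := (P.map fun t => (t.1 : ℝ) * t.2.val x).sum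
def Pol.nm (P : Pol) : ℕ := (P.map fun t => t.1.natAbs).sum

def Pol.mul (P Q : Pol) : Pol := P.flatMap fun t => Q.map fun s => (t.1 * s.1, t.2.add s.2)

lemma sum_smul {R α : Type*} [CommSemiring R] (c : R) (f g : α → R) (Q : List α)
    (h : ∀ s, f s = c * g s) : (Q.map f).sum = c * (Q.map g).sum := by
  induction Q with
  | nil => simp
  | cons s Q ih => rw [List.map_cons, List.sum_cons, List.map_cons, List.sum_cons, ih, h]; ring

lemma Pol.ev_mul (w : ℤ) (r : Rad) (P Q : Pol) :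
    (P.mul Q).ev w r = P.ev w r * Q.ev w r := by
  unfold Pol.ev Pol.mul
  induction P with
  | nil => simp
  | cons t P ih =>
    rw [List.flatMap_cons, List.map_append, List.sum_append, ih, List.map_cons, List.sum_cons,
      add_mul, List.map_map]
    congr 1
    refine sum_smul _ _ _ _ (fun s => ?_)
    simp only [Function.comp, Mon.code_add, pow_add]; ring

lemma Pol.re_mul (x : Pnt) (P Q : Pol) : (P.mul Q).re x = P.re x * Q.re x := by
  unfold Pol.re Pol.mul
  induction P with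
  | nil => simp
  | cons t P ih =>
    rw [List.flatMap_cons, List.map_append, List.sum_append, ih, List.map_cons, List.sum_cons,
      add_mul, List.map_map]
    congr 1
    refine sum_smul _ _ _ _ (fun s => ?_)
    simp only [Function.comp, Mon.val_add]; push_cast; ring

lemma Pol.nm_mul (P Q : Pol) : (P.mul Q).nm = P.nm * Q.nm := by
  unfold Pol.nm Pol.mul
  induction P with
  | nil => simp
  | cons t P ih =>
    rw [List.flatMap_cons, List.map_append, List.sum_append, ih, List.map_cons, List.sum_cons,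
      add_mul, List.map_map]
    congr 1
    refine sum_smul _ _ _ _ (fun s => ?_)
    simp only [Function.comp, Int.natAbs_mul]

/-- `v` and `φ` are the values of one polynomial in the box `N` with norm at most `c` -/
def Rep (w : ℤ) (r : Rad) (x : Pnt) (N : Bd) (c : ℕ) (v : ℤ) (φ : ℝ) : Prop :=
  ∃ P : Pol, (∀ t ∈ P, t.2.In N) ∧ P.nm ≤ c ∧ P.ev w r = v ∧ P.re x = φ

section Rep
variable {w : ℤ} {r : Rad} {x : Pnt}

lemma Rep.zero (N : Bd) (c : ℕ) : Rep w r x N c 0 0 :=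
  ⟨[], by simp, by simp [Pol.nm], by simp [Pol.ev], by simp [Pol.re]⟩

lemma Rep.mon (z : ℤ) {m : Mon} {N : Bd} (h : m.In N) :
    Rep w r x N z.natAbs (z * w ^ m.code r) (z * m.val x) :=
  ⟨[(z, m)], by simpa using h, by simp [Pol.nm], by simp [Pol.ev], by simp [Pol.re]⟩

lemma Rep.add {N : Bd} {c c' : ℕ} {v v' : ℤ} {φ φ' : ℝ} (h : Rep w r x N c v φ)
    (h' : Rep w r x N c' v' φ') : Rep w r x N (c + c') (v + v') (φ + φ') := by
  obtain ⟨P, h1, h2, rfl, rfl⟩ := h
  obtain ⟨Q, g1, g2, rfl, rfl⟩ := h'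
  refine ⟨P ++ Q, ?_, ?_, ?_, ?_⟩
  · intro t ht
    rcases List.mem_append.1 ht with h | h
    · exact h1 t h
    · exact g1 t h
  · unfold Pol.nm at *
    rw [List.map_append, List.sum_append]; exact Nat.add_le_add h2 g2
  · unfold Pol.ev; rw [List.map_append, List.sum_append]
  · unfold Pol.re; rw [List.map_append, List.sum_append]

lemma Rep.mul {N N' : Bd} {c c' : ℕ} {v v' : ℤ} {φ φ' : ℝ} (h : Rep w r x N c v φ)
    (h' : Rep w r x N' c' v' φ') : Rep w r x (N.add N') (c * c') (v * v') (φ * φ') := by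
  obtain ⟨P, h1, h2, rfl, rfl⟩ := h
  obtain ⟨Q, g1, g2, rfl, rfl⟩ := h'
  refine ⟨P.mul Q, ?_, ?_, Pol.ev_mul _ _ _ _, Pol.re_mul _ _ _⟩
  · intro t ht
    obtain ⟨s, hs, ht⟩ := List.mem_flatMap.1 ht
    obtain ⟨q, hq, rfl⟩ := List.mem_map.1 ht
    exact (h1 s hs).add (g1 q hq)
  · rw [Pol.nm_mul]; exact Nat.mul_le_mul h2 g2

lemma Rep.smul {N : Bd} {c : ℕ} {v : ℤ} {φ : ℝ} (z : ℤ) (h : Rep w r x N c v φ) :
    Rep w r x N (z.natAbs * c) (z * v) (z * φ) := by
  obtain ⟨P, h1, h2, rfl, rfl⟩ := h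
  refine ⟨P.map fun t => (z * t.1, t.2), ?_, ?_, ?_, ?_⟩
  · intro t ht
    obtain ⟨s, hs, rfl⟩ := List.mem_map.1 ht
    exact h1 s hs
  · unfold Pol.nm at *
    rw [List.map_map]
    have : (P.map ((fun t : ℤ × Mon => t.1.natAbs) ∘ fun t => (z * t.1, t.2))).sum
        = z.natAbs * (P.map (fun t => t.1.natAbs)).sum := by
      rw [← List.sum_map_mul_left]
      congr 1
      refine List.map_congr_left (fun t _ => ?_)
      simp [Int.natAbs_mul]
    rw [this]; exact Nat.mul_le_mul_left _ h2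
  · unfold Pol.ev
    rw [List.map_map, ← List.sum_map_mul_left]
    congr 1
    refine List.map_congr_left (fun t _ => ?_)
    simp only [Function.comp]; ring
  · unfold Pol.re
    rw [List.map_map, ← List.sum_map_mul_left]
    congr 1
    refine List.map_congr_left (fun t _ => ?_)
    simp only [Function.comp]; push_cast; ring

lemma Rep.mono {N : Bd} {c c' : ℕ} {v : ℤ} {φ : ℝ} (h : Rep w r x N c v φ) (hc : c ≤ c') :
    Rep w r x N c' v φ := by
  obtain ⟨P, h1, h2, h3, h4⟩ := h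
  exact ⟨P, h1, h2.trans hc, h3, h4⟩

lemma Rep.le {N N' : Bd} {c : ℕ} {v : ℤ} {φ : ℝ} (h : Rep w r x N c v φ) (hN : N.le N') :
    Rep w r x N' c v φ := by
  obtain ⟨P, h1, h2, h3, h4⟩ := h
  exact ⟨P, fun t ht => (h1 t ht).le hN, h2, h3, h4⟩

end Rep

/-! ### the value determines the polynomial -/

open Polynomial in
/-- a polynomial with small coefficients which vanishes at `w` is zero -/
lemma poly_zero {w : ℕ} (P : ℤ[X]) (h : ∀ k, (P.coeff k).natAbs < w) (h0 : P.eval (w : ℤ) = 0) :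
    P = 0 := by
  by_contra hP
  obtain ⟨Q, hQ, hdvd⟩ : ∃ Q : ℤ[X], P = X ^ P.natTrailingDegree * Q ∧ Q.coeff 0 ≠ 0 := by
    have h1 : X ^ P.natTrailingDegree ∣ P := by
      rw [X_pow_dvd_iff]
      intro d hd
      exact coeff_eq_zero_of_lt_natTrailingDegree hd
    obtain ⟨Q, hQ⟩ := h1
    refine ⟨Q, hQ, ?_⟩
    have h2 : P.coeff P.natTrailingDegree ≠ 0 := by
      rw [← trailingCoeff]
      exact trailingCoeff_nonzero_iff_nonzero.2 hP
    intro h3
    apply h2
    have h4 : P.coeff P.natTrailingDegree = Q.coeff 0 := by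
      have e := congrArg (fun R : ℤ[X] => R.coeff P.natTrailingDegree) hQ
      have := coeff_X_pow_mul Q P.natTrailingDegree 0
      rw [zero_add] at this
      exact e.trans this
    rw [h4, h3]
  have hw : (0 : ℤ) < w := by
    have := h 0
    omega
  have h5 : Q.eval (w : ℤ) = 0 := by
    rw [hQ, eval_mul, eval_pow, eval_X] at h0
    rcases mul_eq_zero.1 h0 with h6 | h6
    · exact absurd h6 (pow_ne_zero _ hw.ne')
    · exact h6
  have h6 : (w : ℤ) ∣ Q.coeff 0 := by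
    have h7 : (X - C (w : ℤ)) ∣ Q := dvd_iff_isRoot.2 h5
    obtain ⟨S, hS⟩ := h7
    refine ⟨-S.coeff 0, ?_⟩
    rw [hS, coeff_zero_eq_eval_zero, eval_mul, coeff_zero_eq_eval_zero]
    simp
  have h8 : P.coeff P.natTrailingDegree = Q.coeff 0 := by
    have e := congrArg (fun R : ℤ[X] => R.coeff P.natTrailingDegree) hQ
    have := coeff_X_pow_mul Q P.natTrailingDegree 0
    rw [zero_add] at this
    exact e.trans this
  have h9 := h P.natTrailingDegree
  rw [h8] at h9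
  have h10 := Int.natAbs_dvd_natAbs.2 h6
  rw [Int.natAbs_natCast] at h10
  have h11 : (Q.coeff 0).natAbs = 0 := Nat.eq_zero_of_dvd_of_lt h10 h9
  exact hdvd (Int.natAbs_eq_zero.1 h11)

open Polynomial in
/-- the univariate polynomial of a list of terms -/
noncomputable def uni (r : Rad) (P : Pol) : ℤ[X] := (P.map fun t => C t.1 * X ^ t.2.code r).sum

open Polynomial in
lemma uni_coeff (r : Rad) (P : Pol) (k : ℕ) : ((uni r P).coeff k).natAbs ≤ P.nm := by
  unfold uni Pol.nm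
  induction P with
  | nil => simp
  | cons t P ih =>
    rw [List.map_cons, List.sum_cons, coeff_add, List.map_cons, List.sum_cons]
    refine (Int.natAbs_add_le _ _).trans (Nat.add_le_add ?_ ih)
    rw [coeff_C_mul, coeff_X_pow]
    split_ifs <;> simp

open Polynomial in
lemma uni_eval (r : Rad) (P : Pol) (w : ℤ) : (uni r P).eval w = P.ev w r := by
  unfold uni Pol.ev
  induction P with
  | nil => simp
  | cons t P ih =>
    rw [List.map_cons, List.sum_cons, eval_add, ih, List.map_cons, List.sum_cons]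
    simp

open Polynomial in
/-- a linear functional of the coefficients -/
lemma uni_sum (r : Rad) (P : Pol) (F : ℕ → ℝ) :
    (P.map fun t => (t.1 : ℝ) * F (t.2.code r)).sum =
      (uni r P).sum (fun k a => (a : ℝ) * F k) := by
  unfold uni
  induction P with
  | nil => simp
  | cons t P ih =>
    rw [List.map_cons, List.sum_cons, ih, List.map_cons, List.sum_cons]
    rw [sum_add_index]
    · congr 1
      rw [C_mul_X_pow_eq_monomial, sum_monomial_index _ _ (by simp)]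
    · intro i; simp
    · intro i a b; push_cast; ring

/-- the value determines the polynomial -/
theorem Rep.eq_zero {w : ℕ} {r : Rad} {x : Pnt} {N : Bd} {c : ℕ} {φ : ℝ}
    (hr : r.ok N) (h : Rep (w : ℤ) r x N c 0 φ) (hc : c < w) : φ = 0 := by
  classical
  obtain ⟨P, h1, h2, h3, rfl⟩ := h
  have h4 : uni r P = 0 := by
    apply poly_zero (w := w)
    · intro k
      exact lt_of_le_of_lt ((uni_coeff r P k).trans h2) hc
    · rw [uni_eval]; exact h3
  set F : ℕ → ℝ := fun k => if h : ∃ m : Mon, m.In N ∧ m.code r = k then h.choose.val x else 0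
    with hF
  have h5 : ∀ t ∈ P, t.2.val x = F (t.2.code r) := by
    intro t ht
    have h6 : ∃ m : Mon, m.In N ∧ m.code r = t.2.code r := ⟨t.2, h1 t ht, rfl⟩
    have h7 := h6.choose_spec
    rw [hF]
    simp only
    rw [dif_pos h6, code_inj hr h7.1 (h1 t ht) h7.2]
  have h8 : P.re x = (P.map fun t => (t.1 : ℝ) * F (t.2.code r)).sum := by
    unfold Pol.re
    congr 1
    refine List.map_congr_left (fun t ht => ?_)
    rw [h5 t ht]
  rw [h8, uni_sum, h4, Polynomial.sum_zero_index]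

end Pool.Sos71
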