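import Pool.Agent.Helper71.Sos.Bdd
import Pool.Agent.Helper69.EK6.Fin

/-!
From a certificate with the standard multipliers to the hypothesis `Side` of helper69.
-/

set_option autoImplicit false

namespace Pool.Sos71

open Pool.Agent.Helper69.EK6 (eDi Side)

/-- `1` -/
def mOne : Ex := .lit 1
/-- `S (C - S)` -/
def mAB : Ex := .mul (.va 1) (.add (.va 2) (.sc (-1) (.va 1)))
/-- `l (Ln - Ld l)` -/
def mL (Ln Ld : ℤ) : Ex := .mul (.va 0) (.add (.lit Ln) (.sc (-Ld) (.va 0)))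
/-- `S (C - S) l (Ln - Ld l)` -/
def mABL (Ln Ld : ℤ) : Ex := .mul mAB (mL Ln Ld)
/-- `-2 u - u² - v²` -/
def mCen : Ex := .bp [[0, 0, -1], [-2], [-1]]

/-- the domain -/
structure DomL (Ln Ld : ℤ) (x : Pnt) : Prop where
  b0 : 0 ≤ x.b
  bc : x.b ≤ x.c
  u1 : x.b ^ 2 + x.c ^ 2 = 1
  a0 : 0 ≤ x.a
  a1 : (Ld : ℝ) * x.a ≤ Ln

variable {Ln Ld : ℤ} {x : Pnt}

lemma mOne_re (x : Pnt) : mOne.re x = 1 := by
  show ((1 : ℤ) : ℝ) = 1
  norm_num

lemma mAB_re (x : Pnt) : mAB.re x = x.b * (x.c - x.b) := by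
  show x.b * (x.c + ((-1 : ℤ) : ℝ) * x.b) = _
  push_cast; ring

lemma mL_re (Ln Ld : ℤ) (x : Pnt) : (mL Ln Ld).re x = x.a * (Ln - Ld * x.a) := by
  show x.a * ((Ln : ℝ) + ((-Ld : ℤ) : ℝ) * x.a) = _
  push_cast; ring

lemma mABL_re (Ln Ld : ℤ) (x : Pnt) :
    (mABL Ln Ld).re x = x.b * (x.c - x.b) * (x.a * (Ln - Ld * x.a)) := by
  show mAB.re x * (mL Ln Ld).re x = _
  rw [mAB_re, mL_re]

lemma mCen_re (x : Pnt) : mCen.re x = -2 * x.f - x.f ^ 2 - x.g ^ 2 := by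
  simp only [mCen, Ex.re, Pool.EK71.ev2, Pool.EK71.ev1]
  push_cast; ring

lemma mAB_nonneg (h : DomL Ln Ld x) : 0 ≤ mAB.re x := by
  rw [mAB_re]
  exact mul_nonneg h.b0 (by linarith [h.bc])

lemma mAB_le (h : DomL Ln Ld x) : mAB.re x ≤ 1 := by
  rw [mAB_re]
  nlinarith [h.u1, h.b0, sq_nonneg (x.c - x.b), sq_nonneg x.b, sq_nonneg x.c]

lemma mL_nonneg (h : DomL Ln Ld x) : 0 ≤ (mL Ln Ld).re x := by
  rw [mL_re]
  exact mul_nonneg h.a0 (by linarith [h.a1])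

lemma mABL_nonneg (h : DomL Ln Ld x) : 0 ≤ (mABL Ln Ld).re x := by
  show 0 ≤ mAB.re x * (mL Ln Ld).re x
  exact mul_nonneg (mAB_nonneg h) (mL_nonneg h)

/-- a block with an admissible multiplier -/
def Good (K : ℕ) (Ln Ld : ℤ) (b : Blk) : Prop :=
  (∀ x, DomL Ln Ld x → 0 ≤ b.mult.re x) ∨
    (Bdd.itb K b.its = true ∧ ((∀ x, DomL Ln Ld x → ∃ w : ℝ, 0 ≤ w ∧ w ≤ 1 ∧
      b.mult.re x = w * (eDi 1).re x) ∨ (∀ x, DomL Ln Ld x → ∃ w : ℝ, 0 ≤ w ∧ w ≤ 1 ∧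
      b.mult.re x = w * (eDi (-1)).re x)))

section
variable {K : ℕ} {b : Blk}

lemma Good.one (h : b.mult = mOne) : Good K Ln Ld b :=
  Or.inl fun x _ => by rw [h, mOne_re]; norm_num

lemma Good.ab (h : b.mult = mAB) : Good K Ln Ld b :=
  Or.inl fun x hx => by rw [h]; exact mAB_nonneg hx

lemma Good.l (h : b.mult = mL Ln Ld) : Good K Ln Ld b :=
  Or.inl fun x hx => by rw [h]; exact mL_nonneg hx

lemma Good.abl (h : b.mult = mABL Ln Ld) : Good K Ln Ld b :=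
  Or.inl fun x hx => by rw [h]; exact mABL_nonneg hx

lemma Good.d1 (h : b.mult = eDi 1) (hi : Bdd.itb K b.its = true) : Good K Ln Ld b :=
  Or.inr ⟨hi, Or.inl fun x _ => ⟨1, zero_le_one, le_rfl, by rw [h, one_mul]⟩⟩

lemma Good.d2 (h : b.mult = eDi (-1)) (hi : Bdd.itb K b.its = true) : Good K Ln Ld b :=
  Or.inr ⟨hi, Or.inr fun x _ => ⟨1, zero_le_one, le_rfl, by rw [h, one_mul]⟩⟩

lemma Good.da1 (h : b.mult = .mul mAB (eDi 1)) (hi : Bdd.itb K b.its = true) :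
    Good K Ln Ld b :=
  Or.inr ⟨hi, Or.inl fun x hx => ⟨mAB.re x, mAB_nonneg hx, mAB_le hx, by rw [h]; rfl⟩⟩

lemma Good.da2 (h : b.mult = .mul mAB (eDi (-1))) (hi : Bdd.itb K b.its = true) :
    Good K Ln Ld b :=
  Or.inr ⟨hi, Or.inr fun x hx => ⟨mAB.re x, mAB_nonneg hx, mAB_le hx, by rw [h]; rfl⟩⟩

end

lemma DomL.dom0 (h : DomL Ln Ld x) (hd : 0 < Ld) {L : ℝ} (hL : (Ln : ℝ) / Ld ≤ L) :
    Bdd.Dom0 L x := by
  have hd' : (0 : ℝ) < Ld := by exact_mod_cast hd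
  have h1 : x.a ≤ Ln / Ld := by
    rw [le_div_iff₀ hd']
    linarith [h.a1]
  have hc := h.b0.trans h.bc
  refine ⟨⟨h.a0, h1.trans hL⟩, ?_, ?_⟩
  · rw [abs_of_nonneg h.b0]
    nlinarith [h.u1, sq_nonneg x.c]
  · rw [abs_of_nonneg hc]
    nlinarith [h.u1, sq_nonneg x.b]

theorem brs_side {k : ℕ} {r : Rad} {N : Bd} {K : ℕ} (hd : 0 < Ld) (bs : List Blk)
    (hk : bokW k r N bs = true) (hg : ∀ b ∈ bs, Good K Ln Ld b) :
    ∃ B : ℝ, 0 ≤ B ∧ ∀ x : Pnt, DomL Ln Ld x → ∃ q1 q2 : ℝ, 0 ≤ q1 ∧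
      q1 ≤ B * (1 + x.f ^ 2 + x.g ^ 2) ^ K ∧ 0 ≤ q2 ∧ q2 ≤ B * (1 + x.f ^ 2 + x.g ^ 2) ^ K ∧
      q1 * (eDi 1).re x + q2 * (eDi (-1)).re x ≤ brs x bs := by
  induction bs with
  | nil =>
    refine ⟨0, le_rfl, fun x _ => ⟨0, 0, le_rfl, by simp, le_rfl, by simp, ?_⟩⟩
    simp [brs]
  | cons b bs ih =>
    simp only [bokW, Bool.and_eq_true] at hk
    obtain ⟨⟨k1, _⟩, k3⟩ := hk
    obtain ⟨B, hB, ih⟩ := ih k3 fun b' hb => hg b' (List.mem_cons_of_mem _ hb)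
    rcases hg b List.mem_cons_self with h | ⟨hi, h⟩
    · refine ⟨B, hB, fun x hx => ?_⟩
      obtain ⟨q1, q2, a1, a2, a3, a4, a5⟩ := ih x hx
      refine ⟨q1, q2, a1, a2, a3, a4, ?_⟩
      have := mul_nonneg (h x hx) (Blk.q_nonnegW k1 x)
      rw [brs]
      linarith
    · obtain ⟨C, hC, hC'⟩ := Bdd.q_bd k1 hi (L := max 1 ((Ln : ℝ) / Ld)) (le_max_left _ _)
      refine ⟨B + C, by positivity, fun x hx => ?_⟩
      obtain ⟨q1, q2, a1, a2, a3, a4, a5⟩ := ih x hx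
      have hq := Blk.q_nonnegW k1 x
      have hq' := hC' x (hx.dom0 hd (le_max_right _ _))
      have hr : 0 ≤ (1 + x.f ^ 2 + x.g ^ 2) ^ K := by positivity
      rcases h with h | h
      · obtain ⟨w, w0, w1, hw⟩ := h x hx
        have h1 : w * b.q x ≤ b.q x := mul_le_of_le_one_left hq w1
        refine ⟨q1 + w * b.q x, q2, add_nonneg a1 (mul_nonneg w0 hq), ?_, a3, ?_, ?_⟩
        · rw [add_mul]
          linarith
        · rw [add_mul]
          linarith [mul_nonneg hC hr]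
        · rw [brs, hw]
          linarith
      · obtain ⟨w, w0, w1, hw⟩ := h x hx
        have h1 : w * b.q x ≤ b.q x := mul_le_of_le_one_left hq w1
        refine ⟨q1, q2 + w * b.q x, a1, ?_, add_nonneg a3 (mul_nonneg w0 hq), ?_, ?_⟩
        · rw [add_mul]
          linarith [mul_nonneg hC hr]
        · rw [add_mul]
          linarith
        · rw [brs, hw]
          linarith

/-- **the hypothesis of the final theorem from a certificate** -/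
theorem side_of {D : Cert} (h : D.checkW = true) {K : ℕ} (hd : 0 < Ld)
    (hg : ∀ b ∈ D.blocks, Good K Ln Ld b) : Side K Ln Ld D.target := by
  have hk : bokW D.k D.r D.N D.blocks = true := by
    simp only [Cert.checkW, Bool.and_eq_true] at h
    exact h.1.1.2
  have hs : (0 : ℝ) < D.s := by
    simp only [Cert.checkW, Bool.and_eq_true, Nat.blt_eq] at h
    exact_mod_cast h.1.1.1.2
  obtain ⟨B, hB, hb⟩ := brs_side hd D.blocks hk hg
  refine ⟨B / D.s, fun x h1 h2 h3 h4 h5 => ?_⟩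
  obtain ⟨q1, q2, a1, a2, a3, a4, a5⟩ := hb x ⟨h1, h2, h3, h4, h5⟩
  rw [← Cert.soundW h x] at a5
  refine ⟨q1 / D.s, q2 / D.s, div_nonneg a1 hs.le, ?_, div_nonneg a3 hs.le, ?_, ?_⟩
  · rw [div_mul_eq_mul_div]
    exact div_le_div_of_nonneg_right a2 hs.le
  · rw [div_mul_eq_mul_div]
    exact div_le_div_of_nonneg_right a4 hs.le
  · rw [div_mul_eq_mul_div, div_mul_eq_mul_div, ← add_div, div_le_iff₀ hs]
    linarith

/-- the centre -/
theorem cen_of {D : Cert} (h : D.checkW = true)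
    (hg : ∀ b ∈ D.blocks, b.mult = mOne ∨ b.mult = mCen) (x : Pnt)
    (hx : 0 ≤ -2 * x.f - x.f ^ 2 - x.g ^ 2) : 0 ≤ D.target.re x := by
  refine sos_posW h x fun b hb => ?_
  rcases hg b hb with h | h
  · rw [h, mOne_re]; norm_num
  · rw [h, mCen_re]; exact hx

end Pool.Sos71
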