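import Pool.Agent.Helper71.Sos.Blk

/-!
The same checker with the weights `S, C, P, R : 1`.
-/

set_option autoImplicit false

namespace Pool.Sos71

def Mon.InW (m : Mon) (B : Bd) : Prop :=
  m.a ≤ B.a ∧ m.b ≤ B.b ∧ m.d ≤ B.d ∧ m.e ≤ B.e ∧ m.f ≤ B.f ∧ m.g ≤ B.g ∧
    m.b + m.c + m.d + m.e = B.w


lemma Mon.InW.add {m n : Mon} {B D : Bd} (h : m.InW B) (h' : n.InW D) : (m.add n).InW (B.add D) := by
  obtain ⟨h1, h2, h3, h4, h5, h6, h7⟩ := h
  obtain ⟨g1, g2, g3, g4, g5, g6, g7⟩ := h'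
  refine ⟨Nat.add_le_add h1 g1, Nat.add_le_add h2 g2, Nat.add_le_add h3 g3,
    Nat.add_le_add h4 g4, Nat.add_le_add h5 g5, Nat.add_le_add h6 g6, ?_⟩
  simp only [Mon.add, Bd.add]; omega

lemma Mon.InW.le {m : Mon} {B D : Bd} (h : m.InW B) (h' : B.le D) : m.InW D := by
  obtain ⟨h1, h2, h3, h4, h5, h6, h7⟩ := h
  obtain ⟨g1, g2, g3, g4, g5, g6, g7⟩ := h'
  exact ⟨h1.trans g1, h2.trans g2, h3.trans g3, h4.trans g4, h5.trans g5, h6.trans g6,
    h7.trans g7⟩


lemma code_injW {r : Rad} {B : Bd} (hr : r.ok B) {m n : Mon} (hm : m.InW B) (hn : n.InW B)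
    (h : m.code r = n.code r) : m = n := by
  obtain ⟨r1, r2, r3, r4, r5⟩ := hr
  obtain ⟨a1, a2, a3, a4, a5, a6, a7⟩ := hm
  obtain ⟨b1, b2, b3, b4, b5, b6, b7⟩ := hn
  simp only [Mon.code] at h
  have g1 : r.rg * m.g ≤ r.rg * B.g := Nat.mul_le_mul_left _ a6
  have g2 : r.rg * n.g ≤ r.rg * B.g := Nat.mul_le_mul_left _ b6
  have g3 : r.ra * m.a ≤ r.ra * B.a := Nat.mul_le_mul_left _ a1
  have g4 : r.ra * n.a ≤ r.ra * B.a := Nat.mul_le_mul_left _ b1
  have g5 : r.rb * m.b ≤ r.rb * B.b := Nat.mul_le_mul_left _ a2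
  have g6 : r.rb * n.b ≤ r.rb * B.b := Nat.mul_le_mul_left _ b2
  have g7 : r.rd * m.d ≤ r.rd * B.d := Nat.mul_le_mul_left _ a3
  have g8 : r.rd * n.d ≤ r.rd * B.d := Nat.mul_le_mul_left _ b3
  obtain ⟨e5, h5⟩ := dig_unique (r := r.re) (by omega) (by omega) h
  obtain ⟨e4, h4⟩ := dig_unique (r := r.rd) (by omega) (by omega) h5
  obtain ⟨e3, h3⟩ := dig_unique (r := r.rb) (by omega) (by omega) h4
  obtain ⟨e2, h2⟩ := dig_unique (r := r.ra) (by omega) (by omega) h3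
  obtain ⟨e1, h1⟩ := dig_unique (r := r.rg) (by omega) (by omega) h2
  have e6 : m.c = n.c := by omega
  cases m; cases n
  simp_all


/-- `v` and `φ` are the values of one polynomial in the box `N` with norm at most `c` -/
def RepW (w : ℤ) (r : Rad) (x : Pnt) (N : Bd) (c : ℕ) (v : ℤ) (φ : ℝ) : Prop :=
  ∃ P : Pol, (∀ t ∈ P, t.2.InW N) ∧ P.nm ≤ c ∧ P.ev w r = v ∧ P.re x = φ

section RepW
variable {w : ℤ} {r : Rad} {x : Pnt}

lemma RepW.zero (N : Bd) (c : ℕ) : RepW w r x N c 0 0 :=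
  ⟨[], by simp, by simp [Pol.nm], by simp [Pol.ev], by simp [Pol.re]⟩

lemma RepW.mon (z : ℤ) {m : Mon} {N : Bd} (h : m.InW N) :
    RepW w r x N z.natAbs (z * w ^ m.code r) (z * m.val x) :=
  ⟨[(z, m)], by simpa using h, by simp [Pol.nm], by simp [Pol.ev], by simp [Pol.re]⟩

lemma RepW.add {N : Bd} {c c' : ℕ} {v v' : ℤ} {φ φ' : ℝ} (h : RepW w r x N c v φ)
    (h' : RepW w r x N c' v' φ') : RepW w r x N (c + c') (v + v') (φ + φ') := by
  obtain ⟨P, h1, h2, rfl, rfl⟩ := h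
  obtain ⟨Q, g1, g2, rfl, rfl⟩ := h'
  refine ⟨P ++ Q, ?_, ?_, ?_, ?_⟩
  · intro t ht
    rcases List.mem_append.1 ht with h | h
    · exact h1 t h
    · exact g1 t h
  · unfold Pol.nm at *
    rw [List.map_append, List.sum_append]; exact Nat.add_le_add h2 g2
  · unfold Pol.ev; rw [List.map_append, List.sum_append]
  · unfold Pol.re; rw [List.map_append, List.sum_append]

lemma RepW.mul {N N' : Bd} {c c' : ℕ} {v v' : ℤ} {φ φ' : ℝ} (h : RepW w r x N c v φ)
    (h' : RepW w r x N' c' v' φ') : RepW w r x (N.add N') (c * c') (v * v') (φ * φ') := by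
  obtain ⟨P, h1, h2, rfl, rfl⟩ := h
  obtain ⟨Q, g1, g2, rfl, rfl⟩ := h'
  refine ⟨P.mul Q, ?_, ?_, Pol.ev_mul _ _ _ _, Pol.re_mul _ _ _⟩
  · intro t ht
    obtain ⟨s, hs, ht⟩ := List.mem_flatMap.1 ht
    obtain ⟨q, hq, rfl⟩ := List.mem_map.1 ht
    exact (h1 s hs).add (g1 q hq)
  · rw [Pol.nm_mul]; exact Nat.mul_le_mul h2 g2

lemma RepW.smul {N : Bd} {c : ℕ} {v : ℤ} {φ : ℝ} (z : ℤ) (h : RepW w r x N c v φ) :
    RepW w r x N (z.natAbs * c) (z * v) (z * φ) := by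
  obtain ⟨P, h1, h2, rfl, rfl⟩ := h
  refine ⟨P.map fun t => (z * t.1, t.2), ?_, ?_, ?_, ?_⟩
  · intro t ht
    obtain ⟨s, hs, rfl⟩ := List.mem_map.1 ht
    exact h1 s hs
  · unfold Pol.nm at *
    rw [List.map_map]
    have : (P.map ((fun t : ℤ × Mon => t.1.natAbs) ∘ fun t => (z * t.1, t.2))).sum
        = z.natAbs * (P.map (fun t => t.1.natAbs)).sum := by
      rw [← List.sum_map_mul_left]
      congr 1
      refine List.map_congr_left (fun t _ => ?_)
      simp [Int.natAbs_mul]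
    rw [this]; exact Nat.mul_le_mul_left _ h2
  · unfold Pol.ev
    rw [List.map_map, ← List.sum_map_mul_left]
    congr 1
    refine List.map_congr_left (fun t _ => ?_)
    simp only [Function.comp]; ring
  · unfold Pol.re
    rw [List.map_map, ← List.sum_map_mul_left]
    congr 1
    refine List.map_congr_left (fun t _ => ?_)
    simp only [Function.comp]; push_cast; ring

lemma RepW.mono {N : Bd} {c c' : ℕ} {v : ℤ} {φ : ℝ} (h : RepW w r x N c v φ) (hc : c ≤ c') :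
    RepW w r x N c' v φ := by
  obtain ⟨P, h1, h2, h3, h4⟩ := h
  exact ⟨P, h1, h2.trans hc, h3, h4⟩

lemma RepW.le {N N' : Bd} {c : ℕ} {v : ℤ} {φ : ℝ} (h : RepW w r x N c v φ) (hN : N.le N') :
    RepW w r x N' c v φ := by
  obtain ⟨P, h1, h2, h3, h4⟩ := h
  exact ⟨P, fun t ht => (h1 t ht).le hN, h2, h3, h4⟩

end RepW


/-- the value determines the polynomial -/
theorem RepW.eq_zero {w : ℕ} {r : Rad} {x : Pnt} {N : Bd} {c : ℕ} {φ : ℝ}
    (hr : r.ok N) (h : RepW (w : ℤ) r x N c 0 φ) (hc : c < w) : φ = 0 := by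
  classical
  obtain ⟨P, h1, h2, h3, rfl⟩ := h
  have h4 : uni r P = 0 := by
    apply poly_zero (w := w)
    · intro k
      exact lt_of_le_of_lt ((uni_coeff r P k).trans h2) hc
    · rw [uni_eval]; exact h3
  set F : ℕ → ℝ := fun k => if h : ∃ m : Mon, m.InW N ∧ m.code r = k then h.choose.val x else 0
    with hF
  have h5 : ∀ t ∈ P, t.2.val x = F (t.2.code r) := by
    intro t ht
    have h6 : ∃ m : Mon, m.InW N ∧ m.code r = t.2.code r := ⟨t.2, h1 t ht, rfl⟩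
    have h7 := h6.choose_spec
    rw [hF]
    simp only
    rw [dif_pos h6, code_injW hr h7.1 (h1 t ht) h7.2]
  have h8 : P.re x = (P.map fun t => (t.1 : ℝ) * F (t.2.code r)).sum := by
    unfold Pol.re
    congr 1
    refine List.map_congr_left (fun t ht => ?_)
    rw [h5 t ht]
  rw [h8, uni_sum, h4, Polynomial.sum_zero_index]


/-- box of the exponents -/
def Ex.bdW : Ex → Bd
  | lit _ => ⟨0, 0, 0, 0, 0, 0, 0⟩
  | va i => match i with
    | 0 => ⟨1, 0, 0, 0, 0, 0, 0⟩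
    | 1 => ⟨0, 1, 0, 0, 0, 0, 1⟩
    | 2 => ⟨0, 0, 0, 0, 0, 0, 1⟩
    | 3 => ⟨0, 0, 1, 0, 0, 0, 1⟩
    | 4 => ⟨0, 0, 0, 1, 0, 0, 1⟩
    | 5 => ⟨0, 0, 0, 0, 1, 0, 0⟩
    | _ => ⟨0, 0, 0, 0, 0, 1, 0⟩
  | add p q => p.bdW.max q.bdW
  | mul p q => p.bdW.add q.bdW
  | sc _ p => p.bdW
  | pow p n => p.bdW.smul n
  | bp P => ⟨0, 0, 0, 0, dgx P, dgy P, 0⟩

/-- homogeneity -/
def Ex.okW : Ex → Bool
  | lit _ => true
  | va _ => true
  | add p q => p.okW && q.okW && Nat.beq p.bdW.w q.bdW.w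
  | mul p q => p.okW && q.okW
  | sc _ p => p.okW
  | pow p _ => p.okW
  | bp _ => true


lemma RepW.of_mon {w : ℤ} {r : Rad} {x : Pnt} {m : Mon} {N : Bd} (h : m.InW N) {v : ℤ} {φ : ℝ}
    (hv : v = w ^ m.code r) (hφ : φ = m.val x) : RepW w r x N 1 v φ := by
  have := RepW.mon (w := w) (r := r) (x := x) 1 h
  rw [hv, hφ]
  simpa using this

lemma RepW.b1 {w : ℤ} {r : Rad} {x : Pnt} (l : List ℤ) :
    RepW w r x ⟨0, 0, 0, 0, 0, dg1 l, 0⟩ (nm1 l) (iev1 (w ^ r.rg) l) (Pool.EK71.ev1 x.g l) := by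
  induction l with
  | nil => exact RepW.zero _ _
  | cons a l ih =>
    have h0 : (⟨0, 0, 0, 0, 0, 0, 0⟩ : Mon).InW ⟨0, 0, 0, 0, 0, dg1 (a :: l), 0⟩ := by
      simp [Mon.InW]
    have h1 := RepW.mon (w := w) (r := r) (x := x) a h0
    simp only [Mon.code, Mon.val, mul_zero, add_zero, pow_zero, mul_one] at h1
    cases l with
    | nil =>
      have h2 := h1.add (RepW.zero (w := w) (r := r) (x := x) ⟨0, 0, 0, 0, 0, dg1 [a], 0⟩ 0)
      have e1 : iev1 (w ^ r.rg) [a] = a + 0 := by simp [iev1]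
      have e2 : Pool.EK71.ev1 x.g [a] = a + 0 := by simp [Pool.EK71.ev1]
      rw [e1, e2]
      exact h2
    | cons b l =>
      have h2 := RepW.of_mon (w := w) (r := r) (x := x) (m := ⟨0, 0, 0, 0, 0, 0, 1⟩)
        (N := ⟨0, 0, 0, 0, 0, 1, 0⟩) (by simp [Mon.InW]) (v := w ^ r.rg) (φ := x.g)
        (by simp [Mon.code]) (by simp [Mon.val])
      have h3 := h1.add ((h2.mul ih).le (N' := ⟨0, 0, 0, 0, 0, dg1 (a :: b :: l), 0⟩) (by
        refine ⟨by simp [Bd.add], by simp [Bd.add], by simp [Bd.add], by simp [Bd.add],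
          by simp [Bd.add], ?_, by simp [Bd.add]⟩
        show 1 + dg1 (b :: l) ≤ Nat.succ (dg1 (b :: l))
        omega))
      rw [one_mul] at h3
      exact h3

lemma RepW.b2 {w : ℤ} {r : Rad} {x : Pnt} (P : List (List ℤ)) :
    RepW w r x ⟨0, 0, 0, 0, dgx P, dgy P, 0⟩ (nm2 P) (iev2 w (w ^ r.rg) P)
      (Pool.EK71.ev2 x.f x.g P) := by
  induction P with
  | nil => exact RepW.zero _ _
  | cons a l ih =>
    have h1 := (RepW.b1 (w := w) (r := r) (x := x) a).le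
      (N' := ⟨0, 0, 0, 0, dgx (a :: l), dgy (a :: l), 0⟩)
      ⟨le_rfl, le_rfl, le_rfl, le_rfl, Nat.zero_le _, Nat.le_max_left _ _, rfl⟩
    cases l with
    | nil =>
      have h2 := h1.add (RepW.zero (w := w) (r := r) (x := x) ⟨0, 0, 0, 0, dgx [a], dgy [a], 0⟩ 0)
      have e1 : iev2 w (w ^ r.rg) [a] = iev1 (w ^ r.rg) a + 0 := by simp [iev2]
      have e2 : Pool.EK71.ev2 x.f x.g [a] = Pool.EK71.ev1 x.g a + 0 := by simp [Pool.EK71.ev2]
      rw [e1, e2]
      exact h2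
    | cons b l =>
      have h2 := RepW.of_mon (w := w) (r := r) (x := x) (m := ⟨0, 0, 0, 0, 0, 1, 0⟩)
        (N := ⟨0, 0, 0, 0, 1, 0, 0⟩) (by simp [Mon.InW]) (v := w) (φ := x.f)
        (by simp [Mon.code]) (by simp [Mon.val])
      have h3 := h1.add ((h2.mul ih).le
        (N' := ⟨0, 0, 0, 0, dgx (a :: b :: l), dgy (a :: b :: l), 0⟩) (by
        refine ⟨by simp [Bd.add], by simp [Bd.add], by simp [Bd.add], by simp [Bd.add],
          ?_, ?_, by simp [Bd.add]⟩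
        · show 1 + dgx (b :: l) ≤ Nat.succ (dgx (b :: l))
          omega
        · show 0 + dgy (b :: l) ≤ Nat.max (dg1 a) (dgy (b :: l))
          rw [Nat.zero_add]
          exact Nat.le_max_right _ _))
      rw [one_mul] at h3
      exact h3

lemma Ex.repW {w : ℤ} {r : Rad} {x : Pnt} (e : Ex) (h : e.okW = true) :
    RepW w r x e.bdW e.nm (e.ev (r.pt w)) (e.re x) := by
  induction e with
  | lit z =>
    have h1 : (⟨0, 0, 0, 0, 0, 0, 0⟩ : Mon).InW ⟨0, 0, 0, 0, 0, 0, 0⟩ := by simp [Mon.InW]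
    have := RepW.mon (w := w) (r := r) (x := x) z h1
    simpa [Mon.code, Mon.val, Ex.ev, Ex.re, Ex.nm, Ex.bdW] using this
  | va i =>
    match i with
    | 0 => exact RepW.of_mon (m := ⟨1, 0, 0, 0, 0, 0, 0⟩) (by simp [Mon.InW, Ex.bdW])
            (by simp [Ex.ev, Rad.pt, Mon.code]) (by simp [Ex.re, Mon.val])
    | 1 => exact RepW.of_mon (m := ⟨0, 1, 0, 0, 0, 0, 0⟩) (by simp [Mon.InW, Ex.bdW])
            (by simp [Ex.ev, Rad.pt, Mon.code]) (by simp [Ex.re, Mon.val])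
    | 2 => exact RepW.of_mon (m := ⟨0, 0, 1, 0, 0, 0, 0⟩) (by simp [Mon.InW, Ex.bdW])
            (by simp [Ex.ev, Mon.code]) (by simp [Ex.re, Mon.val])
    | 3 => exact RepW.of_mon (m := ⟨0, 0, 0, 1, 0, 0, 0⟩) (by simp [Mon.InW, Ex.bdW])
            (by simp [Ex.ev, Rad.pt, Mon.code]) (by simp [Ex.re, Mon.val])
    | 4 => exact RepW.of_mon (m := ⟨0, 0, 0, 0, 1, 0, 0⟩) (by simp [Mon.InW, Ex.bdW])
            (by simp [Ex.ev, Rad.pt, Mon.code]) (by simp [Ex.re, Mon.val])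
    | 5 => exact RepW.of_mon (m := ⟨0, 0, 0, 0, 0, 1, 0⟩) (by simp [Mon.InW, Ex.bdW])
            (by simp [Ex.ev, Rad.pt, Mon.code]) (by simp [Ex.re, Mon.val])
    | (k + 6) =>
      exact RepW.of_mon (m := ⟨0, 0, 0, 0, 0, 0, 1⟩) (by simp [Mon.InW, Ex.bdW])
        (by simp [Ex.ev, Rad.pt, Mon.code]) (by simp [Ex.re, Mon.val])
  | add p q ihp ihq =>
    simp only [Ex.okW, Bool.and_eq_true] at h
    obtain ⟨⟨h1, h2⟩, h3⟩ := h
    have h3 := Nat.eq_of_beq_eq_true h3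
    exact ((ihp h1).le (Bd.le_max_left _ _)).add ((ihq h2).le (Bd.le_max_right _ _ h3))
  | mul p q ihp ihq =>
    simp only [Ex.okW, Bool.and_eq_true] at h
    exact (ihp h.1).mul (ihq h.2)
  | sc z p ih =>
    simp only [Ex.okW] at h
    exact (ih h).smul z
  | pow p n ih =>
    simp only [Ex.okW] at h
    have ih := ih h
    show RepW w r x (p.bdW.smul n) (npow p.nm n) (ipow (p.ev (r.pt w)) n) (p.re x ^ n)
    induction n with
    | zero =>
      have h1 : (⟨0, 0, 0, 0, 0, 0, 0⟩ : Mon).InW (p.bdW.smul 0) := by simp [Mon.InW, Bd.smul]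
      have := RepW.of_mon (w := w) (r := r) (x := x) h1 (v := 1) (φ := 1) (by simp [Mon.code])
        (by simp [Mon.val])
      simpa [npow, ipow] using this
    | succ n ihn =>
      have h2 := ih.mul ihn
      have e1 : p.bdW.add (p.bdW.smul n) = p.bdW.smul (n + 1) := by
        simp only [Bd.add, Bd.smul]
        congr 1 <;> ring
      rw [e1] at h2
      rw [pow_succ, mul_comm (p.re x ^ n)]
      exact h2
  | bp P => exact RepW.b2 P


section rep
variable {k : ℕ} {r : Rad} {N : Bd} {nf : ℕ}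

/-- the shifts are right, the monomials are in the box, the norm is at most `nf` -/
def Itm.OkW (k : ℕ) (r : Rad) (N : Bd) (nf : ℕ) (i : Itm) : Prop :=
  (i.m.add i.f.m1).InW N ∧ (i.m.add i.f.m2).InW N ∧ i.a = k * i.m.code r ∧
    i.f.b1 = k * i.f.m1.code r ∧ i.f.b2 = k * i.f.m2.code r ∧ i.f.c + i.f.d ≤ nf ∧
    (i.f.s = true → i.f.d <<< i.f.b2 ≤ i.f.c <<< i.f.b1)

def GdW (k : ℕ) (r : Rad) (N : Bd) (nf : ℕ) : List Itm → Prop
  | [] => True
  | i :: it => i.OkW k r N nf ∧ i.f.V = eb (i :: it) ∧ GdW k r N nf it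


lemma lin_eqW {B : ℕ} (it : List Itm) (h : GdW k r N nf it) (p acc : ℕ) :
    lin B it p acc = acc * eb it + sd B it p := by
  induction it generalizing p acc with
  | nil => simp [lin, eb, sd]
  | cons i it ih =>
    obtain ⟨_, h3, h4⟩ := h
    rw [lin, sd, Itm.v_eq, h3]
    rw [eb] at h3 ⊢
    rcases ho : i.e with _ | _
    · simp only [ho] at h3 ⊢
      rw [ih h4]
      show (acc + (p % B) <<< i.a) * eb it + sd B it (p / B) = _
      rw [Nat.shiftLeft_eq]; ring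
    · simp only [ho] at h3 ⊢
      rw [ih h4, Fac.ap_eq]
      show (acc + (p % B) <<< i.a) * i.f.V + (0 * eb it + sd B it (p / B)) = _
      rw [Nat.shiftLeft_eq]; ring


lemma rep_itemW {i : Itm} (h : i.OkW k r N nf) {x : Pnt} :
    RepW ((2 ^ k : ℕ) : ℤ) r x N nf (i.v : ℤ) (i.re x) := by
  obtain ⟨h1, h2, h3, h4, h5, h6, h7⟩ := h
  have r1 := RepW.mon (w := ((2 ^ k : ℕ) : ℤ)) (r := r) (x := x) (i.f.c : ℤ) h1
  rw [two_pow_code, Mon.code_add, Mon.val_add] at r1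
  unfold Itm.re Fac.re
  rw [Itm.v_eq]
  unfold Fac.V Fac.ap
  rcases hs : i.f.s with _ | _
  · have r2 := RepW.mon (w := ((2 ^ k : ℕ) : ℤ)) (r := r) (x := x) (i.f.d : ℤ) h2
    rw [two_pow_code, Mon.code_add, Mon.val_add] at r2
    have r3 := (r1.add r2).mono (c' := nf) (by simpa using h6)
    have e1 : (i.f.c : ℤ) * ((2 ^ (k * (i.m.code r + i.f.m1.code r)) : ℕ) : ℤ)
        + (i.f.d : ℤ) * ((2 ^ (k * (i.m.code r + i.f.m2.code r)) : ℕ) : ℤ) =
        ((2 ^ i.a * (Nat.add (Nat.shiftLeft (Nat.mul i.f.c 1) i.f.b1)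
          (Nat.shiftLeft (Nat.mul i.f.d 1) i.f.b2)) : ℕ) : ℤ) := by
      show _ = ((2 ^ i.a * ((i.f.c * 1) <<< i.f.b1 + (i.f.d * 1) <<< i.f.b2) : ℕ) : ℤ)
      rw [Nat.shiftLeft_eq, Nat.shiftLeft_eq, h3, h4, h5, Nat.mul_add k, Nat.mul_add k, pow_add,
        pow_add]
      push_cast; ring
    rw [e1] at r3
    have e2 : ((i.f.c : ℤ) : ℝ) * (i.m.val x * i.f.m1.val x)
        + ((i.f.d : ℤ) : ℝ) * (i.m.val x * i.f.m2.val x) =
        i.m.val x * (i.f.c * i.f.m1.val x + i.f.d * i.f.m2.val x) := by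
      push_cast; ring
    rw [e2] at r3
    exact r3
  · have r2 := RepW.mon (w := ((2 ^ k : ℕ) : ℤ)) (r := r) (x := x) (-(i.f.d : ℤ)) h2
    rw [two_pow_code, Mon.code_add, Mon.val_add] at r2
    have r3 := (r1.add r2).mono (c' := nf) (by simpa using h6)
    have h8 := h7 hs
    have e1 : (i.f.c : ℤ) * ((2 ^ (k * (i.m.code r + i.f.m1.code r)) : ℕ) : ℤ)
        + -(i.f.d : ℤ) * ((2 ^ (k * (i.m.code r + i.f.m2.code r)) : ℕ) : ℤ) =
        ((2 ^ i.a * (Nat.sub (Nat.shiftLeft (Nat.mul i.f.c 1) i.f.b1)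
          (Nat.shiftLeft (Nat.mul i.f.d 1) i.f.b2)) : ℕ) : ℤ) := by
      show _ = ((2 ^ i.a * ((i.f.c * 1) <<< i.f.b1 - (i.f.d * 1) <<< i.f.b2) : ℕ) : ℤ)
      rw [Nat.cast_mul, Nat.cast_sub (by rw [mul_one, mul_one]; exact h8)]
      rw [Nat.shiftLeft_eq, Nat.shiftLeft_eq, h3, h4, h5, Nat.mul_add k, Nat.mul_add k, pow_add,
        pow_add]
      push_cast; ring
    rw [e1] at r3
    have e2 : ((i.f.c : ℤ) : ℝ) * (i.m.val x * i.f.m1.val x)
        + ((-(i.f.d : ℤ) : ℤ) : ℝ) * (i.m.val x * i.f.m2.val x) =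
        i.m.val x * (i.f.c * i.f.m1.val x - i.f.d * i.f.m2.val x) := by
      push_cast; ring
    rw [e2] at r3
    exact r3

lemma rep_linW {B off : ℕ} (hB : B = 2 * off) (h0 : 0 < off) {x : Pnt} (it : List Itm)
    (h : GdW k r N nf it) (p : ℕ) :
    RepW ((2 ^ k : ℕ) : ℤ) r x N (it.length * (off * nf)) ((sd B it p : ℤ) - off * (tot it : ℤ))
      (rl B off x it p) := by
  induction it generalizing p with
  | nil =>
    have := RepW.zero (w := ((2 ^ k : ℕ) : ℤ)) (r := r) (x := x) N 0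
    simpa [sd, tot, rl] using this
  | cons i it ih =>
    have h1 := rep_itemW h.1 (x := x)
    have h2 := (h1.smul (((p % B : ℕ) : ℤ) - off)).add (ih h.2.2 (p / B))
    have h3 : (((p % B : ℕ) : ℤ) - off).natAbs ≤ off := by
      have : p % B < B := Nat.mod_lt _ (by omega)
      omega
    have e1 : (((p % B : ℕ) : ℤ) - off) * (i.v : ℤ)
        + ((sd B it (p / B) : ℤ) - off * (tot it : ℤ)) =
        ((sd B (i :: it) p : ℕ) : ℤ) - off * ((tot (i :: it) : ℕ) : ℤ) := by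
      have e2 : tot (i :: it) = i.v + tot it := rfl
      rw [sd, e2]
      generalize p % B = d
      push_cast; ring
    have e3 : (((((p % B : ℕ) : ℤ) - off : ℤ)) : ℝ) * i.re x + rl B off x it (p / B) =
        rl B off x (i :: it) p := by
      rw [rl]
      generalize p % B = d
      push_cast; ring
    rw [e1, e3] at h2
    refine h2.mono ?_
    rw [List.length_cons]
    nlinarith [Nat.mul_le_mul_right nf h3]


lemma rep_sqsW {B off : ℕ} (hB : B = 2 * off) (h0 : 0 < off) {x : Pnt} (it : List Itm)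
    (h : GdW k r N nf it) (Ls : List ℕ) {n : ℕ} (hn : it.length ≤ n) :
    RepW ((2 ^ k : ℕ) : ℤ) r x (N.add N) (Ls.length * ((n * (off * nf)) * (n * (off * nf))))
      ((sqs B off it Ls (tot it) : ℕ) : ℤ) (rsq B off x it Ls) := by
  induction it generalizing Ls with
  | nil => exact (RepW.zero _ _)
  | cons i it ih =>
    cases Ls with
    | nil => exact (RepW.zero _ _)
    | cons L Ls =>
      have h1 := rep_linW hB h0 (x := x) (i :: it) h L
      have h2 := (h1.mono (Nat.mul_le_mul_right (off * nf) hn))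
      have h3 := (h2.mul h2).add (ih h.2.2 Ls ((Nat.le_succ _).trans hn))
      have e1 : ((sqs B off (i :: it) (L :: Ls) (tot (i :: it)) : ℕ) : ℤ) =
          ((sd B (i :: it) L : ℤ) - off * (tot (i :: it) : ℤ))
            * ((sd B (i :: it) L : ℤ) - off * (tot (i :: it) : ℤ))
          + ((sqs B off it Ls (tot it) : ℕ) : ℤ) := by
        rw [sqs, tot_sub, lin_eqW (i :: it) h, zero_mul, zero_add]
        show ((sqd (sd B (i :: it) L) (off * tot (i :: it)) + sqs B off it Ls (tot it) : ℕ) : ℤ) = _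
        push_cast
        rw [sqd_eq]
        push_cast; ring
      have e2 : rl B off x (i :: it) L * rl B off x (i :: it) L + rsq B off x it Ls =
          rsq B off x (i :: it) (L :: Ls) := by
        rw [rsq]; ring
      rw [← e1, e2] at h3
      refine h3.mono (le_of_eq ?_)
      rw [List.length_cons]; ring

lemma rep_exW {B off : ℕ} (hB : B = 2 * off) (h0 : 0 < off) {x : Pnt} (it : List Itm)
    (h : GdW k r N nf it) (Es : List ℕ) {n : ℕ} (hn : it.length ≤ n) :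
    RepW ((2 ^ k : ℕ) : ℤ) r x (N.add N) (Es.length * ((n * (off * nf)) * nf))
      (((eps B it Es : ℕ) : ℤ) - ((ens off it Es (tot it) : ℕ) : ℤ)) (rex B off x it Es) := by
  induction it generalizing Es with
  | nil => exact (RepW.zero _ _)
  | cons i it ih =>
    cases Es with
    | nil => exact (RepW.zero _ _)
    | cons E Es =>
      have h1 := rep_linW hB h0 (x := x) (i :: it) h E
      have h2 := (h1.mono (Nat.mul_le_mul_right (off * nf) hn))
      have h3 := (h2.mul (rep_itemW h.1 (x := x))).add (ih h.2.2 Es ((Nat.le_succ _).trans hn))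
      have e1 : ((eps B (i :: it) (E :: Es) : ℕ) : ℤ)
            - ((ens off (i :: it) (E :: Es) (tot (i :: it)) : ℕ) : ℤ) =
          ((sd B (i :: it) E : ℤ) - off * (tot (i :: it) : ℤ)) * (i.v : ℤ)
          + (((eps B it Es : ℕ) : ℤ) - ((ens off it Es (tot it) : ℕ) : ℤ)) := by
        rw [eps, ens, tot_sub, lin_eqW (i :: it) h, zero_mul, zero_add, Itm.ap_eq, Itm.ap_eq]
        show ((sd B (i :: it) E * i.v + eps B it Es : ℕ) : ℤ)
          - (((off * tot (i :: it)) * i.v + ens off it Es (tot it) : ℕ) : ℤ) = _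
        push_cast; ring
      have e2 : rl B off x (i :: it) E * i.re x + rex B off x it Es =
          rex B off x (i :: it) (E :: Es) := rfl
      rw [← e1, e2] at h3
      refine h3.mono (le_of_eq ?_)
      rw [List.length_cons]; ring

lemma rep_z2W {x : Pnt} (it : List Itm) (h : GdW k r N nf it) :
    RepW ((2 ^ k : ℕ) : ℤ) r x (N.add N) (it.length * (nf * nf)) ((z2 it : ℕ) : ℤ)
      (rz2 x it) := by
  induction it with
  | nil => exact (RepW.zero _ _)
  | cons i it ih =>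
    have h1 := rep_itemW h.1 (x := x)
    have h2 := (h1.mul h1).add (ih h.2.2)
    have e1 : ((z2 (i :: it) : ℕ) : ℤ) = (i.v : ℤ) * (i.v : ℤ) + ((z2 it : ℕ) : ℤ) := by
      rw [z2]
      show ((i.v * i.v + z2 it : ℕ) : ℤ) = _
      push_cast; ring
    have e2 : i.re x * i.re x + rz2 x it = rz2 x (i :: it) := by rw [rz2]; ring
    rw [← e1, e2] at h2
    refine h2.mono (le_of_eq ?_)
    rw [List.length_cons]; ring

end rep


def Mon.inbW (m : Mon) (B : Bd) : Bool :=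
  Nat.ble m.a B.a && Nat.ble m.b B.b && Nat.ble m.d B.d && Nat.ble m.e B.e &&
    Nat.ble m.f B.f && Nat.ble m.g B.g && Nat.beq (m.b + m.c + m.d + m.e) B.w

lemma Mon.inbW_sound {m : Mon} {B : Bd} (h : m.inbW B = true) : m.InW B := by
  simp only [Mon.inbW, Bool.and_eq_true, Nat.ble_eq] at h
  obtain ⟨⟨⟨⟨⟨⟨h1, h2⟩, h3⟩, h4⟩, h5⟩, h6⟩, h7⟩ := h
  exact ⟨h1, h2, h3, h4, h5, h6, Nat.eq_of_beq_eq_true h7⟩


def Itm.okbW (k : ℕ) (r : Rad) (N : Bd) (nf : ℕ) (i : Itm) : Bool :=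
  (i.m.add i.f.m1).inbW N && (i.m.add i.f.m2).inbW N && Nat.beq i.a (k * i.m.code r) &&
    Nat.beq i.f.b1 (k * i.f.m1.code r) && Nat.beq i.f.b2 (k * i.f.m2.code r) &&
    Nat.ble (i.f.c + i.f.d) nf &&
    (match i.f.s with
      | false => true
      | true => Nat.ble (Nat.shiftLeft i.f.d i.f.b2) (Nat.shiftLeft i.f.c i.f.b1))

lemma Itm.okbW_sound {k : ℕ} {r : Rad} {N : Bd} {nf : ℕ} {i : Itm} (h : i.okbW k r N nf = true) :
    i.OkW k r N nf := by
  simp only [Itm.okbW, Bool.and_eq_true] at h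
  obtain ⟨⟨⟨⟨⟨⟨h1, h2⟩, h3⟩, h4⟩, h5⟩, h6⟩, h7⟩ := h
  refine ⟨Mon.inbW_sound h1, Mon.inbW_sound h2, Nat.eq_of_beq_eq_true h3,
    Nat.eq_of_beq_eq_true h4, Nat.eq_of_beq_eq_true h5, Nat.le_of_ble_eq_true h6, ?_⟩
  intro hs
  rw [hs] at h7
  exact Nat.le_of_ble_eq_true h7

def gdbW (k : ℕ) (r : Rad) (N : Bd) (nf : ℕ) : List Itm → Bool
  | [] => true
  | i :: it => i.okbW k r N nf && (i.e || nxt i it) && gdbW k r N nf it

lemma gdbW_sound {k : ℕ} {r : Rad} {N : Bd} {nf : ℕ} {it : List Itm}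
    (h : gdbW k r N nf it = true) : GdW k r N nf it := by
  induction it with
  | nil => trivial
  | cons i it ih =>
    simp only [gdbW, Bool.and_eq_true, Bool.or_eq_true] at h
    obtain ⟨⟨h1, h2⟩, h3⟩ := h
    have h4 := ih h3
    refine ⟨Itm.okbW_sound h1, ?_, h4⟩
    rw [eb]
    rcases he : i.e with _ | _
    · rw [he] at h2
      cases it with
      | nil => simp [nxt] at h2
      | cons j it =>
        have h5 : eqF i.f j.f = true := by simpa [nxt] using h2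
        show i.f.V = eb (j :: it)
        rw [eqF_sound h5]
        exact h4.2.1
    · rfl


def Blk.okW (b : Blk) (k : ℕ) (r : Rad) : Bool :=
  gdbW k r b.N b.nf b.its && b.mult.okW && Nat.beq b.B (2 * b.off) && Nat.blt 0 b.off &&
    Nat.beq b.BE (2 * b.offE) && Nat.blt 0 b.offE &&
    (emp b.E || Nat.ble ((len b.its + 1) * b.offE) (2 * b.dl))


lemma Blk.q_nonnegW {b : Blk} {k : ℕ} {r : Rad} (h : b.okW k r = true) (x : Pnt) : 0 ≤ b.q x := by
  simp only [Blk.okW, Bool.and_eq_true, Bool.or_eq_true, Nat.blt_eq, Nat.ble_eq] at h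
  obtain ⟨⟨⟨⟨⟨⟨_, _⟩, _⟩, _⟩, h5⟩, h6⟩, h7⟩ := h
  have h5 := Nat.eq_of_beq_eq_true h5
  have a1 := rsq_nonneg b.B b.off x b.its b.L
  have a2 := rz2_nonneg x b.its
  have a3 : (0 : ℝ) ≤ b.dl := Nat.cast_nonneg _
  rcases h7 with h7 | h7
  · have hE : b.E = [] := by
      cases hE : b.E with
      | nil => rfl
      | cons a l => rw [hE] at h7; simp [emp] at h7
    have : rex b.BE b.offE x b.its b.E = 0 := by
      rw [hE]
      cases b.its <;> rfl
    rw [Blk.q, this]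
    positivity
  · have a4 := rex_abs h5 h6 x b.its b.E
    have a5 : (((len b.its + 1) * b.offE : ℕ) : ℝ) ≤ ((2 * b.dl : ℕ) : ℝ) := by
      exact_mod_cast h7
    rw [len_eq] at a5
    push_cast at a5
    have a6 := neg_abs_le (rex b.BE b.offE x b.its b.E)
    have a7 : ((b.its.length : ℝ) + 1) * b.offE * rz2 x b.its ≤ 2 * b.dl * rz2 x b.its :=
      mul_le_mul_of_nonneg_right a5 a2
    rw [Blk.q]
    nlinarith

lemma Blk.repW {b : Blk} {k : ℕ} {r : Rad} (h : b.okW k r = true) (x : Pnt) :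
    RepW ((2 ^ k : ℕ) : ℤ) r x (b.N.add b.N) b.nmq ((b.vp : ℤ) - (b.vn : ℤ)) (b.q x) := by
  simp only [Blk.okW, Bool.and_eq_true, Nat.blt_eq] at h
  obtain ⟨⟨⟨⟨⟨⟨h1, _⟩, h3⟩, h4⟩, h5⟩, h6⟩, _⟩ := h
  have h3 := Nat.eq_of_beq_eq_true h3
  have h5 := Nat.eq_of_beq_eq_true h5
  have hg := gdbW_sound h1
  have r1 := rep_sqsW h3 h4 (x := x) b.its hg b.L (n := b.its.length) le_rfl
  have r2 := rep_exW h5 h6 (x := x) b.its hg b.E (n := b.its.length) le_rfl
  have r3 := (rep_z2W (x := x) b.its hg).smul (b.dl : ℤ)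
  have r4 := (r1.add r3).add r2
  have e1 : ((sqs b.B b.off b.its b.L (tot b.its) : ℕ) : ℤ) + (b.dl : ℤ) * ((z2 b.its : ℕ) : ℤ)
      + (((eps b.BE b.its b.E : ℕ) : ℤ) - ((ens b.offE b.its b.E (tot b.its) : ℕ) : ℤ)) =
      (b.vp : ℤ) - (b.vn : ℤ) := by
    have e2 : b.vp = sqs b.B b.off b.its b.L (tot b.its)
      + (dz2 b.dl b.its + eps b.BE b.its b.E) := rfl
    rw [e2, Blk.vn, dz2_eq]; push_cast; ring
  have e3 : rsq b.B b.off x b.its b.L + ((b.dl : ℤ) : ℝ) * rz2 x b.its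
      + rex b.BE b.offE x b.its b.E = b.q x := by
    rw [Blk.q]; push_cast; ring
  rw [e1, e3] at r4
  refine r4.mono (le_of_eq ?_)
  rw [Blk.nmq, len_eq, lenN_eq, lenN_eq]
  simp


def bokW (k : ℕ) (r : Rad) (N : Bd) : List Blk → Bool
  | [] => true
  | b :: bs => b.okW k r && (b.mult.bdW.add (b.N.add b.N)).leb N && bokW k r N bs


def Cert.checkW (c : Cert) : Bool :=
  c.r.okb c.N && c.target.okW && c.target.bdW.leb c.N && Nat.blt 0 c.s && bokW c.k c.r c.N c.blocks &&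
    Nat.blt (Nat.add (Nat.mul c.s c.target.nm) (bnm c.blocks)) (Nat.pow 2 c.k) &&
    eqi (Int.mul (Int.ofNat c.s) (c.target.ev (ipt c.k c.r))) (bsum (ipt c.k c.r) c.blocks)

lemma bsum_repW {k : ℕ} {r : Rad} {N : Bd} (bs : List Blk) (h : bokW k r N bs = true) (x : Pnt) :
    RepW ((2 ^ k : ℕ) : ℤ) r x N (bnm bs) (bsum (ipt k r) bs) (brs x bs) := by
  induction bs with
  | nil => exact RepW.zero _ _
  | cons b bs ih =>
    simp only [bokW, Bool.and_eq_true] at h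
    obtain ⟨⟨h1, h2⟩, h3⟩ := h
    have hm : b.mult.okW = true := by
      simp only [Blk.okW, Bool.and_eq_true] at h1
      exact h1.1.1.1.1.1.2
    have r1 := Ex.repW (w := ((2 ^ k : ℕ) : ℤ)) (r := r) (x := x) b.mult hm
    have r2 := ((r1.mul (Blk.repW h1 x)).le (Bd.leb_sound h2)).add (ih h3)
    rw [← ipt_eq] at r2
    exact r2

theorem Cert.soundW {c : Cert} (h : c.checkW = true) (x : Pnt) :
    (c.s : ℝ) * c.target.re x = brs x c.blocks := by
  simp only [Cert.checkW, Bool.and_eq_true, Nat.blt_eq] at h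
  obtain ⟨⟨⟨⟨⟨⟨h1, h2⟩, h3⟩, h4⟩, h5⟩, h6⟩, h7⟩ := h
  have r1 := (Ex.repW (w := ((2 ^ c.k : ℕ) : ℤ)) (r := c.r) (x := x) c.target h2).le
    (Bd.leb_sound h3)
  have r2 := (bsum_repW c.blocks h5 x).smul (-1)
  have r3 := (r1.smul (c.s : ℤ)).add r2
  have e7 := eqi_sound h7
  have e8 : (c.s : ℤ) * c.target.ev (c.r.pt ((2 ^ c.k : ℕ) : ℤ))
      + -1 * bsum (ipt c.k c.r) c.blocks = 0 := by
    rw [← ipt_eq]
    have : (c.s : ℤ) * c.target.ev (ipt c.k c.r) = bsum (ipt c.k c.r) c.blocks := e7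
    rw [this]; ring
  rw [e8] at r3
  have r4 := r3.eq_zero (Rad.okb_sound h1) (by
    have h6' : c.s * c.target.nm + bnm c.blocks < 2 ^ c.k := h6
    simpa using h6')
  push_cast at r4
  linarith

theorem sos_posW {c : Cert} (h : c.checkW = true) (x : Pnt)
    (hm : ∀ b ∈ c.blocks, 0 ≤ b.mult.re x) : 0 ≤ c.target.re x := by
  have h1 := Cert.soundW h x
  have h2 : 0 ≤ brs x c.blocks := by
    have h5 : bokW c.k c.r c.N c.blocks = true := by
      simp only [Cert.checkW, Bool.and_eq_true] at h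
      exact h.1.1.2
    revert h5 hm
    induction c.blocks with
    | nil => intro _ _; exact le_rfl
    | cons b bs ih =>
      intro hm h5
      simp only [bokW, Bool.and_eq_true] at h5
      exact add_nonneg (mul_nonneg (hm b (by simp)) (Blk.q_nonnegW h5.1.1 x))
        (ih (fun b' hb => hm b' (by simp [hb])) h5.2)
  have h3 : (0 : ℝ) < c.s := by
    simp only [Cert.checkW, Bool.and_eq_true, Nat.blt_eq] at h
    exact_mod_cast h.1.1.1.2
  rw [← h1] at h2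
  exact nonneg_of_mul_nonneg_right h2 h3


end Pool.Sos71
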